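import Pool.Agent.H92.HD.Defs

/-!
# Bounds for the weight `exp (k e^{iψ} - i k ψ)`
-/

namespace Pool.Agent.H92.HD

open MeasureTheory Set Real Metric
open Pool.Agent.H77.HZ

theorem norm_wt (k : ℕ) (ψ : ℝ) : ‖wt k ψ‖ = exp (k * cos ψ) := by
  rw [wt, Complex.norm_exp]
  congr 1
  rw [mul_comm Complex.I (ψ : ℂ), Complex.exp_mul_I]
  simp [Complex.cos_ofReal_re, Complex.sin_ofReal_re]

theorem continuous_wt (k : ℕ) : Continuous (wt k) := by
  unfold wt
  fun_prop

theorem cos_le_five {ψ : ℝ} (h : |ψ| ≤ π) : cos ψ ≤ 1 - ψ ^ 2 / 5 := by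
  have h1 := Real.cos_le_one_sub_mul_cos_sq h
  have h2 : (1 : ℝ) / 5 ≤ 2 / π ^ 2 := by
    rw [div_le_div_iff₀ (by norm_num) (by positivity)]
    nlinarith [Real.pi_lt_d2, Real.pi_pos]
  nlinarith [sq_nonneg ψ]

theorem norm_wt_le {k : ℕ} {ψ : ℝ} (h : |ψ| ≤ π) :
    ‖wt k ψ‖ ≤ exp k * exp (-((k : ℝ) / 5) * ψ ^ 2) := by
  rw [norm_wt, ← exp_add]
  apply exp_le_exp.mpr
  have := mul_le_mul_of_nonneg_left (cos_le_five h) (Nat.cast_nonneg (α := ℝ) k)
  linarith

theorem half_pi_abs {ψ : ℝ} (h : ψ ∈ Ioc (-(π / 2)) (π / 2)) : |ψ| ≤ π / 2 :=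
  abs_le.mpr ⟨h.1.le, h.2⟩

theorem wt_int {k : ℕ} (hk : 1 ≤ k) :
    ∫ ψ in (-(π / 2))..(π / 2), ‖wt k ψ‖ ≤ exp k * √(10 * π / k) := by
  have hk0 : (0 : ℝ) < k := by exact_mod_cast hk
  rw [intervalIntegral.integral_of_le (by linarith [pi_pos])]
  have hg : Integrable (fun ψ : ℝ => exp k * exp (-((k : ℝ) / 5) * ψ ^ 2)) :=
    (integrable_exp_neg_mul_sq (by positivity)).const_mul _
  calc ∫ ψ in Ioc (-(π / 2)) (π / 2), ‖wt k ψ‖
      ≤ ∫ ψ in Ioc (-(π / 2)) (π / 2), exp k * exp (-((k : ℝ) / 5) * ψ ^ 2) := by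
        apply integral_mono_of_nonneg
        · exact Filter.Eventually.of_forall fun ψ => norm_nonneg _
        · exact hg.integrableOn
        · refine (ae_restrict_iff' measurableSet_Ioc).mpr (Filter.Eventually.of_forall fun ψ h => ?_)
          exact norm_wt_le ((half_pi_abs h).trans (by linarith [pi_pos]))
    _ ≤ ∫ ψ : ℝ, exp k * exp (-((k : ℝ) / 5) * ψ ^ 2) := by
        apply setIntegral_le_integral hg
        exact Filter.Eventually.of_forall fun ψ => by positivity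
    _ = exp k * √(π / (k / 5)) := by rw [integral_const_mul, integral_gaussian]
    _ ≤ exp k * √(10 * π / k) := by
        apply mul_le_mul_of_nonneg_left _ (exp_pos _).le
        apply Real.sqrt_le_sqrt
        rw [div_div_eq_mul_div]
        apply div_le_div_of_nonneg_right _ hk0.le
        linarith [pi_pos]

theorem wt_two_pi (k : ℕ) :
    ∫ ψ in (0 : ℝ)..(2 * π), wt k ψ = 2 * π * (k : ℂ) ^ k / (k.factorial : ℂ) := by
  have h := DifferentiableOn.circleIntegral_one_div_sub_center_pow_smul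
    (f := fun z : ℂ => Complex.exp (k * z)) (c := 0) (R := 1) one_pos k
    (by fun_prop : Differentiable ℂ fun z : ℂ => Complex.exp (k * z)).differentiableOn
  rw [iteratedDeriv_cexp_const_mul] at h
  rw [circleIntegral] at h
  have e : ∀ ψ : ℝ, deriv (circleMap 0 1) ψ •
      ((1 / (circleMap 0 1 ψ - 0) ^ (k + 1)) • (Complex.exp (k * circleMap 0 1 ψ))) =
      Complex.I * wt k ψ := by
    intro ψ
    simp only [deriv_circleMap, circleMap, Complex.ofReal_one, one_mul, zero_add, sub_zero,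
      smul_eq_mul, one_div]
    have hne : Complex.exp (ψ * Complex.I) ≠ 0 := Complex.exp_ne_zero _
    have hpw : Complex.exp (Complex.I * (k : ℂ) * (ψ : ℂ)) =
        Complex.exp ((ψ : ℂ) * Complex.I) ^ k := by
      rw [← Complex.exp_nat_mul]
      congr 1
      ring
    rw [wt, Complex.exp_sub, mul_comm Complex.I (ψ : ℂ), hpw]
    generalize Complex.exp ((ψ : ℂ) * Complex.I) = u at hne ⊢
    generalize Complex.exp ((k : ℂ) * u) = v
    rw [pow_succ]
    field_simp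
  simp_rw [e] at h
  rw [intervalIntegral.integral_const_mul] at h
  have h2 : Complex.I * ∫ ψ in (0 : ℝ)..(2 * π), wt k ψ =
      Complex.I * (2 * π * (k : ℂ) ^ k / (k.factorial : ℂ)) := by
    rw [h]
    simp
    ring
  exact mul_left_cancel₀ Complex.I_ne_zero h2

theorem wt_periodic (k : ℕ) : Function.Periodic (wt k) (2 * π) := by
  intro ψ
  unfold wt
  have h1 : Complex.exp (Complex.I * ((ψ + 2 * π : ℝ) : ℂ)) = Complex.exp (Complex.I * ψ) := by
    push_cast
    rw [mul_add, Complex.exp_add, show Complex.I * (2 * (π : ℂ)) = 2 * π * Complex.I by ring,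
      Complex.exp_two_pi_mul_I, mul_one]
  rw [h1, Complex.exp_sub, Complex.exp_sub]
  congr 1
  push_cast
  rw [mul_add, Complex.exp_add,
    show Complex.I * (k : ℂ) * (2 * (π : ℂ)) = (k : ℂ) * (2 * π * Complex.I) by ring,
    Complex.exp_nat_mul_two_pi_mul_I, mul_one]

theorem fact_le {k : ℕ} (hk : 1 ≤ k) :
    (k.factorial : ℝ) ≤ exp 1 * √k * ((k : ℝ) / exp 1) ^ k := by
  obtain ⟨m, rfl⟩ : ∃ m, k = m + 1 := ⟨k - 1, by omega⟩
  have h := Stirling.stirlingSeq'_antitone (Nat.zero_le m)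
  simp only [Function.comp, Nat.succ_eq_add_one, zero_add, Stirling.stirlingSeq_one] at h
  rw [Stirling.stirlingSeq] at h
  have hp : (0 : ℝ) < √(2 * ((m + 1 : ℕ) : ℝ)) * (((m + 1 : ℕ) : ℝ) / exp 1) ^ (m + 1) := by
    positivity
  rw [div_le_iff₀ hp] at h
  refine h.trans (le_of_eq ?_)
  rw [Real.sqrt_mul (by norm_num)]
  field_simp

theorem wt_lower {k : ℕ} (hk : 8 ≤ k) :
    exp k / √k ≤ ‖∫ ψ in (-(π / 2))..(π / 2), wt k ψ‖ := by
  have hk8 : (8 : ℝ) ≤ k := by exact_mod_cast hk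
  have hk0 : (0 : ℝ) < k := by linarith
  have hi : ∀ a b : ℝ, IntervalIntegrable (wt k) volume a b :=
    fun a b => (continuous_wt k).intervalIntegrable a b
  have h1 : ∫ ψ in (-π)..π, wt k ψ = 2 * π * (k : ℂ) ^ k / (k.factorial : ℂ) := by
    rw [← wt_two_pi]
    have := (wt_periodic k).intervalIntegral_add_eq (-π) 0
    rw [show -π + 2 * π = π by ring, zero_add] at this
    exact this
  have h2 : ∫ ψ in (-π)..π, wt k ψ = (∫ ψ in (-π)..(-(π / 2)), wt k ψ) +
      (∫ ψ in (-(π / 2))..(π / 2), wt k ψ) + ∫ ψ in (π / 2)..π, wt k ψ := by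
    rw [intervalIntegral.integral_add_adjacent_intervals (hi _ _) (hi _ _),
      intervalIntegral.integral_add_adjacent_intervals (hi _ _) (hi _ _)]
  have hn : ∀ ψ : ℝ, cos ψ ≤ 0 → ‖wt k ψ‖ ≤ 1 := by
    intro ψ h
    rw [norm_wt]
    apply exp_le_one_iff.mpr
    exact mul_nonpos_of_nonneg_of_nonpos hk0.le h
  have h3 : ‖∫ ψ in (-π)..(-(π / 2)), wt k ψ‖ ≤ π / 2 := by
    have := intervalIntegral.norm_integral_le_of_norm_le_const (a := -π) (b := -(π / 2))
      (C := 1) (f := wt k) (fun ψ h => hn ψ (by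
        rw [uIoc_of_le (by linarith [pi_pos])] at h
        rw [← cos_neg]
        exact cos_nonpos_of_pi_div_two_le_of_le (by linarith [h.2]) (by linarith [h.1, pi_pos])))
    rw [one_mul, abs_of_nonneg (by linarith [pi_pos])] at this
    linarith
  have h4 : ‖∫ ψ in (π / 2)..π, wt k ψ‖ ≤ π / 2 := by
    have := intervalIntegral.norm_integral_le_of_norm_le_const (a := π / 2) (b := π)
      (C := 1) (f := wt k) (fun ψ h => hn ψ (by
        rw [uIoc_of_le (by linarith [pi_pos])] at h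
        exact cos_nonpos_of_pi_div_two_le_of_le (by linarith [h.1]) (by linarith [h.2, pi_pos])))
    rw [one_mul, abs_of_nonneg (by linarith [pi_pos])] at this
    linarith
  have h5 : ‖(2 * π * (k : ℂ) ^ k / (k.factorial : ℂ))‖ = 2 * π * (k : ℝ) ^ k / k.factorial := by
    rw [norm_div, norm_mul, norm_mul, norm_pow]
    simp [abs_of_pos pi_pos]
  have h6 : 2 * π * (k : ℝ) ^ k / k.factorial - π ≤
      ‖∫ ψ in (-(π / 2))..(π / 2), wt k ψ‖ := by
    have e1 : ∫ ψ in (-(π / 2))..(π / 2), wt k ψ = (∫ ψ in (-π)..π, wt k ψ) -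
        ((∫ ψ in (-π)..(-(π / 2)), wt k ψ) + ∫ ψ in (π / 2)..π, wt k ψ) := by
      rw [h2]; ring
    rw [e1]
    have e2 := norm_sub_norm_le (∫ ψ in (-π)..π, wt k ψ)
      ((∫ ψ in (-π)..(-(π / 2)), wt k ψ) + ∫ ψ in (π / 2)..π, wt k ψ)
    have e3 := norm_add_le (∫ ψ in (-π)..(-(π / 2)), wt k ψ) (∫ ψ in (π / 2)..π, wt k ψ)
    have e4 : ‖∫ ψ in (-π)..π, wt k ψ‖ = 2 * π * (k : ℝ) ^ k / k.factorial := by rw [h1, h5]
    linarith
  refine le_trans ?_ h6
  have hs : 0 < √(k : ℝ) := Real.sqrt_pos.mpr hk0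
  have h7 : 2 * π / exp 1 * (exp k / √k) ≤ 2 * π * (k : ℝ) ^ k / k.factorial := by
    have hf := fact_le (by omega : 1 ≤ k)
    have hf0 : (0 : ℝ) < k.factorial := by exact_mod_cast k.factorial_pos
    rw [le_div_iff₀ hf0]
    calc 2 * π / exp 1 * (exp k / √k) * k.factorial
        ≤ 2 * π / exp 1 * (exp k / √k) * (exp 1 * √k * ((k : ℝ) / exp 1) ^ k) := by gcongr
      _ = 2 * π * (k : ℝ) ^ k := by
          rw [div_pow, ← exp_nat_mul, mul_one]
          field_simp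
  have h8 : (2.3 : ℝ) ≤ 2 * π / exp 1 := by
    rw [le_div_iff₀ (exp_pos 1)]
    have := Real.exp_one_lt_d9
    have := Real.pi_gt_d2
    norm_num at *
    linarith
  have h9 : (8 : ℝ) ≤ exp k / √k := by
    rw [le_div_iff₀ hs]
    have a1 : (k : ℝ) ^ 2 / 2 ≤ exp k := by
      have := Real.pow_div_factorial_le_exp (k : ℝ) hk0.le 2
      simpa using this
    have a2 : √(k : ℝ) ≤ k := by
      rw [Real.sqrt_le_left hk0.le]
      nlinarith
    have a3 : (8 : ℝ) * √k ≤ (k : ℝ) ^ 2 := by nlinarith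
    have a4 : (k : ℝ) ^ 2 ≤ 2 * exp k := by linarith
    have a5 : √(k : ℝ) * √k = k := Real.mul_self_sqrt hk0.le
    have a6 : (2 : ℝ) ≤ √(k : ℝ) := by
      rw [show (2 : ℝ) = √4 by rw [show (4 : ℝ) = 2 ^ 2 by norm_num, Real.sqrt_sq (by norm_num)]]
      exact Real.sqrt_le_sqrt (by linarith)
    nlinarith
  have h10 := Real.pi_lt_d2
  nlinarith [mul_le_mul_of_nonneg_right h8 (by linarith : (0 : ℝ) ≤ exp k / √k)]

theorem four_le (x : ℝ) : (1 + x) ^ 4 ≤ 25600 * exp (x ^ 2 / 40) := by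
  have h1 : 1 + (x ^ 2 / 40) + (x ^ 2 / 40) ^ 2 / 2 ≤ exp (x ^ 2 / 40) :=
    Real.quadratic_le_exp_of_nonneg (by positivity)
  have h2 : (1 + x) ^ 4 ≤ 8 * (1 + x ^ 4) := by
    have e : 8 * (1 + x ^ 4) - (1 + x) ^ 4 =
        (x - 1) ^ 2 * (5 * (x + 1) ^ 2 + 2 * x ^ 2 + 2) := by ring
    have : 0 ≤ (x - 1) ^ 2 * (5 * (x + 1) ^ 2 + 2 * x ^ 2 + 2) := by positivity
    linarith
  nlinarith [sq_nonneg x]

theorem wt_mom {k : ℕ} (hk : 64 ≤ k) {q : ℝ → ℝ} (hq0 : ∀ ψ, 0 ≤ q ψ)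
    (hqm : Measurable q)
    (hq1 : ∀ ψ ∈ Icc (-(π / 2)) (π / 2), q ψ ≤ k)
    (hq2 : ∀ ψ ∈ Icc (-(π / 2)) (π / 2), q ψ * (k * cos ψ ^ 2) ≤ 1) :
    ∫ ψ in (-(π / 2))..(π / 2), ‖wt k ψ‖ * ((1 + 2 * √k * |ψ|) ^ 4 * q ψ) ≤
      10 ^ 6 * exp k / (k * √k) := by
  have hk64 : (64 : ℝ) ≤ k := by exact_mod_cast hk
  have hk0 : (0 : ℝ) < k := by linarith
  set s := √(k : ℝ) with hs
  have hss : s ^ 2 = k := Real.sq_sqrt hk0.le
  have hs0 : 0 < s := Real.sqrt_pos.mpr hk0
  have hs8 : 8 ≤ s := by nlinarith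
  have hpt : ∀ ψ ∈ Ioc (-(π / 2)) (π / 2), ‖wt k ψ‖ * ((1 + 2 * s * |ψ|) ^ 4 * q ψ) ≤
      102400 / k * exp k * exp (-((k : ℝ) / 10) * ψ ^ 2) + 256 * k ^ 3 * exp (5 / 9 * k) := by
    intro ψ hψ
    have hψ1 := half_pi_abs hψ
    have hψ2 : ψ ∈ Icc (-(π / 2)) (π / 2) := ⟨hψ.1.le, hψ.2⟩
    have hx0 : 0 ≤ 2 * s * |ψ| := by positivity
    rcases le_or_gt (|ψ|) 1 with h | h
    · have hc : 1 / 2 ≤ cos ψ := by
        have := Real.one_sub_sq_div_two_le_cos (x := ψ)
        have h' : ψ ^ 2 ≤ 1 := by rw [← sq_abs]; nlinarith [abs_nonneg ψ]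
        linarith
      have hq : q ψ ≤ 4 / k := by
        rw [le_div_iff₀ hk0]
        have := hq2 ψ hψ2
        have hc2 : 1 / 4 ≤ cos ψ ^ 2 := by nlinarith
        nlinarith [hq0 ψ, mul_le_mul_of_nonneg_left hc2 (mul_nonneg (hq0 ψ) hk0.le)]
      have hw := norm_wt_le (k := k) (hψ1.trans (by linarith [pi_pos] : π / 2 ≤ π))
      have h4 := four_le (2 * s * |ψ|)
      have hb : 0 ≤ 256 * (k : ℝ) ^ 3 * exp (5 / 9 * k) := by positivity
      calc ‖wt k ψ‖ * ((1 + 2 * s * |ψ|) ^ 4 * q ψ)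
          ≤ (exp k * exp (-((k : ℝ) / 5) * ψ ^ 2)) *
              ((25600 * exp ((2 * s * |ψ|) ^ 2 / 40)) * (4 / k)) := by
            have := hq0 ψ
            gcongr
        _ = 102400 / k * exp k * (exp (-((k : ℝ) / 5) * ψ ^ 2) *
              exp ((2 * s * |ψ|) ^ 2 / 40)) := by ring
        _ = 102400 / k * exp k * exp (-((k : ℝ) / 10) * ψ ^ 2) := by
            rw [← exp_add]
            congr 2
            rw [mul_pow, mul_pow, hss, sq_abs]
            ring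
        _ ≤ _ := by linarith
    · have hc : cos ψ ≤ 5 / 9 := by
        rw [← cos_abs]
        exact (cos_le_cos_of_nonneg_of_le_pi zero_le_one (hψ1.trans (by linarith [pi_pos]))
          h.le).trans cos_one_le
      have hw : ‖wt k ψ‖ ≤ exp (5 / 9 * k) := by
        rw [norm_wt]
        apply exp_le_exp.mpr
        nlinarith
      have hx : 1 + 2 * s * |ψ| ≤ 4 * s := by
        have := Real.pi_lt_d2
        have : |ψ| ≤ 1.6 := by linarith
        nlinarith
      have hq := hq1 ψ hψ2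
      have ha : 0 ≤ 102400 / k * exp k * exp (-((k : ℝ) / 10) * ψ ^ 2) := by positivity
      calc ‖wt k ψ‖ * ((1 + 2 * s * |ψ|) ^ 4 * q ψ)
          ≤ exp (5 / 9 * k) * ((4 * s) ^ 4 * k) := by
            have := hq0 ψ
            gcongr
        _ = 256 * k ^ 3 * exp (5 / 9 * k) := by
            rw [show (4 * s) ^ 4 = 256 * (s ^ 2) ^ 2 by ring, hss]
            ring
        _ ≤ _ := by linarith
  rw [intervalIntegral.integral_of_le (by linarith [pi_pos])]
  have hg : Integrable (fun ψ : ℝ => 102400 / k * exp k * exp (-((k : ℝ) / 10) * ψ ^ 2)) :=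
    (integrable_exp_neg_mul_sq (by positivity)).const_mul _
  have hc : IntegrableOn (fun _ : ℝ => 256 * (k : ℝ) ^ 3 * exp (5 / 9 * k))
      (Ioc (-(π / 2)) (π / 2)) := by
    apply integrableOn_const (by simp) 
  have hA : ∫ ψ in Ioc (-(π / 2)) (π / 2), 102400 / k * exp k * exp (-((k : ℝ) / 10) * ψ ^ 2) ≤
      102400 / k * exp k * √(π / (k / 10)) := by
    rw [← integral_gaussian, ← integral_const_mul]
    apply setIntegral_le_integral hg
    exact Filter.Eventually.of_forall fun ψ => by positivity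
  have hB : ∫ _ψ in Ioc (-(π / 2)) (π / 2), 256 * (k : ℝ) ^ 3 * exp (5 / 9 * k) =
      π * (256 * (k : ℝ) ^ 3 * exp (5 / 9 * k)) := by
    rw [setIntegral_const, Measure.real, Real.volume_Ioc, smul_eq_mul,
      ENNReal.toReal_ofReal (by linarith [pi_pos])]
    ring
  have hC : √(π / (k / 10)) ≤ 5.7 / s := by
    rw [div_div_eq_mul_div, Real.sqrt_div (by positivity), ← hs]
    gcongr
    rw [Real.sqrt_le_left (by norm_num)]
    have := Real.pi_lt_d2
    norm_num at *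
    linarith
  have hD : π * (256 * (k : ℝ) ^ 3 * exp (5 / 9 * k)) ≤ 400000 * exp k / (k * s) := by
    rw [le_div_iff₀ (by positivity)]
    have e1 : exp (k : ℝ) = exp (5 / 9 * k) * exp (4 / 9 * k) := by
      rw [← exp_add]; congr 1; ring
    have e2 : (4 / 9 * (k : ℝ)) ^ 6 / 720 ≤ exp (4 / 9 * k) := by
      have := Real.pow_div_factorial_le_exp (4 / 9 * (k : ℝ)) (by positivity) 6
      simpa [Nat.factorial] using this
    rw [e1]
    have e3 : π * 256 * (k : ℝ) ^ 4 * s ≤ 400000 * ((4 / 9 * (k : ℝ)) ^ 6 / 720) := by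
      have p1 : π * 256 ≤ 807 := by have := Real.pi_lt_d2; linarith
      have p2 : 807 * s ≤ 4.2 * (k : ℝ) ^ 2 := by
        rw [← hss]
        have : 512 ≤ s ^ 3 := by
          have : (8 : ℝ) ^ 3 ≤ s ^ 3 := by gcongr
          linarith
        nlinarith
      calc π * 256 * (k : ℝ) ^ 4 * s ≤ 807 * (k : ℝ) ^ 4 * s := by gcongr
        _ = (k : ℝ) ^ 4 * (807 * s) := by ring
        _ ≤ (k : ℝ) ^ 4 * (4.2 * (k : ℝ) ^ 2) := by gcongr
        _ ≤ 400000 * ((4 / 9 * (k : ℝ)) ^ 6 / 720) := by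
            have : 0 ≤ (k : ℝ) ^ 6 := by positivity
            rw [mul_pow]
            norm_num
            nlinarith
    have e4 : π * 256 * (k : ℝ) ^ 4 * s ≤ 400000 * exp (4 / 9 * k) :=
      e3.trans (mul_le_mul_of_nonneg_left e2 (by norm_num))
    calc π * (256 * (k : ℝ) ^ 3 * exp (5 / 9 * k)) * (k * s)
        = exp (5 / 9 * k) * (π * 256 * (k : ℝ) ^ 4 * s) := by ring
      _ ≤ exp (5 / 9 * k) * (400000 * exp (4 / 9 * k)) := by gcongr
      _ = _ := by ring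
  calc ∫ ψ in Ioc (-(π / 2)) (π / 2), ‖wt k ψ‖ * ((1 + 2 * s * |ψ|) ^ 4 * q ψ)
      ≤ ∫ ψ in Ioc (-(π / 2)) (π / 2), (102400 / k * exp k * exp (-((k : ℝ) / 10) * ψ ^ 2) +
          256 * k ^ 3 * exp (5 / 9 * k)) := by
        apply integral_mono_of_nonneg
        · refine Filter.Eventually.of_forall fun ψ => ?_
          have := hq0 ψ
          positivity
        · exact hg.integrableOn.add hc
        · exact (ae_restrict_iff' measurableSet_Ioc).mpr (Filter.Eventually.of_forall hpt)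
    _ = (∫ ψ in Ioc (-(π / 2)) (π / 2), 102400 / k * exp k * exp (-((k : ℝ) / 10) * ψ ^ 2)) +
          ∫ _ψ in Ioc (-(π / 2)) (π / 2), 256 * (k : ℝ) ^ 3 * exp (5 / 9 * k) :=
        integral_add hg.integrableOn hc
    _ ≤ 102400 / k * exp k * (5.7 / s) + 400000 * exp k / (k * s) := by
        rw [hB]
        refine add_le_add (hA.trans ?_) hD
        gcongr
    _ ≤ 10 ^ 6 * exp k / (k * s) := by
        have e : 102400 / k * exp k * (5.7 / s) + 400000 * exp k / (k * s) =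
            983680 * exp k / (k * s) := by
          field_simp
          ring
        rw [e]
        gcongr
        norm_num

end Pool.Agent.H92.HD
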