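import Pool.Agent.H92.HD.Defs
import Pool.Agent.H77.HZ.Tel
import Pool.Agent.H77.HZ.DirPoly

/-!
# Mollified second moment with a complex shift
-/

namespace Pool.Agent.H92.HD

open MeasureTheory Set Real Metric
open Pool.Agent.H77.HZ

/-- the weight -/
noncomputable def supQ0 (ℓ : ℝ) (δ : ℂ) (v : ℝ) : ℂ :=
  (1 - (v:ℂ) / ℓ) ^ 2 * Complex.exp (δ * v)

/-- its derivative -/
noncomputable def supQ1 (ℓ : ℝ) (δ : ℂ) (v : ℝ) : ℂ :=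
  (-(2 / ℓ) * (1 - (v:ℂ) / ℓ) + δ * (1 - (v:ℂ) / ℓ) ^ 2) * Complex.exp (δ * v)

/-- its second derivative -/
noncomputable def supQ2 (ℓ : ℝ) (δ : ℂ) (v : ℝ) : ℂ :=
  (2 / (ℓ:ℂ) ^ 2 - 4 * δ / ℓ * (1 - (v:ℂ) / ℓ) + δ ^ 2 * (1 - (v:ℂ) / ℓ) ^ 2) *
    Complex.exp (δ * v)

lemma sup_hasDerivAt_lin (ℓ v : ℝ) : HasDerivAt (fun v : ℝ => 1 - (v:ℂ) / ℓ) (-(1 / ℓ)) v := by
  have h1 : HasDerivAt (fun v : ℝ => (v:ℂ)) 1 v := Complex.ofRealCLM.hasDerivAt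
  have h2 := (h1.div_const (ℓ:ℂ)).const_sub 1
  exact h2

lemma sup_hasDerivAt_cexp_mul (δ : ℂ) (v : ℝ) :
    HasDerivAt (fun v : ℝ => Complex.exp (δ * v)) (δ * Complex.exp (δ * v)) v := by
  have h1 : HasDerivAt (fun v : ℝ => (v:ℂ)) 1 v := Complex.ofRealCLM.hasDerivAt
  have h2 := (h1.const_mul δ).cexp
  rw [mul_one, mul_comm] at h2
  exact h2

lemma sup_hasDerivAt_Q0 (ℓ : ℝ) (δ : ℂ) (v : ℝ) : HasDerivAt (supQ0 ℓ δ) (supQ1 ℓ δ v) v := by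
  have h1 := ((sup_hasDerivAt_lin ℓ v).pow 2).mul (sup_hasDerivAt_cexp_mul δ v)
  have h2 : HasDerivAt (supQ0 ℓ δ) _ v := h1
  refine h2.congr_deriv ?_
  unfold supQ1
  simp only [Pi.pow_apply, Nat.cast_ofNat, Nat.add_one_sub_one, pow_one]
  ring

lemma sup_hasDerivAt_Q1 (ℓ : ℝ) (δ : ℂ) (v : ℝ) : HasDerivAt (supQ1 ℓ δ) (supQ2 ℓ δ v) v := by
  have h0 := sup_hasDerivAt_lin ℓ v
  have h1 := ((h0.const_mul (-(2 / (ℓ:ℂ)))).add ((h0.pow 2).const_mul δ)).mul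
    (sup_hasDerivAt_cexp_mul δ v)
  have h2 : HasDerivAt (supQ1 ℓ δ) _ v := h1
  refine h2.congr_deriv ?_
  unfold supQ2
  simp only [Pi.add_apply, Pi.pow_apply, Nat.cast_ofNat, Nat.add_one_sub_one, pow_one]
  ring

lemma sup_continuous_Q2 (ℓ : ℝ) (δ : ℂ) : Continuous (supQ2 ℓ δ) := by
  unfold supQ2
  fun_prop

lemma sup_Q0_eq_integral {ℓ x : ℝ} (hℓ : 0 < ℓ) (hx0 : 0 ≤ x) (hx : x ≤ ℓ) (δ : ℂ) :
    ∫ v in (0:ℝ)..ℓ, supQ2 ℓ δ v * ((max (v - x) 0 : ℝ) : ℂ) = supQ0 ℓ δ x := by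
  have hc : Continuous fun v : ℝ => supQ2 ℓ δ v * ((max (v - x) 0 : ℝ) : ℂ) :=
    (sup_continuous_Q2 ℓ δ).mul (Complex.continuous_ofReal.comp (by fun_prop))
  rw [← intervalIntegral.integral_add_adjacent_intervals (b := x)
    (hc.intervalIntegrable _ _) (hc.intervalIntegrable _ _)]
  have h1 : ∫ v in (0:ℝ)..x, supQ2 ℓ δ v * ((max (v - x) 0 : ℝ) : ℂ) = 0 := by
    rw [intervalIntegral.integral_congr (g := fun _ => (0:ℂ))]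
    · simp
    · intro v hv
      rw [uIcc_of_le hx0] at hv
      have : max (v - x) 0 = 0 := max_eq_right (by linarith [hv.2])
      simp only [this]
      simp
  have h2 : ∫ v in x..ℓ, supQ2 ℓ δ v * ((max (v - x) 0 : ℝ) : ℂ) =
      ∫ v in x..ℓ, supQ2 ℓ δ v * ((v:ℂ) - x) := by
    apply intervalIntegral.integral_congr
    intro v hv
    rw [uIcc_of_le hx] at hv
    have : max (v - x) 0 = v - x := max_eq_left (by linarith [hv.1])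
    simp only [this]
    push_cast
    rfl
  have h3 : ∀ v ∈ uIcc x ℓ, HasDerivAt (fun v : ℝ => supQ1 ℓ δ v * ((v:ℂ) - x) - supQ0 ℓ δ v)
      (supQ2 ℓ δ v * ((v:ℂ) - x)) v := by
    intro v _
    have e1 : HasDerivAt (fun v : ℝ => (v:ℂ) - x) 1 v := by
      have h1 : HasDerivAt (fun v : ℝ => (v:ℂ)) 1 v := Complex.ofRealCLM.hasDerivAt
      exact h1.sub_const _
    have e2 := ((sup_hasDerivAt_Q1 ℓ δ v).mul e1).sub (sup_hasDerivAt_Q0 ℓ δ v)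
    have e3 : HasDerivAt (fun v : ℝ => supQ1 ℓ δ v * ((v:ℂ) - x) - supQ0 ℓ δ v) _ v := e2
    refine e3.congr_deriv ?_
    ring
  have hc2 : Continuous fun v : ℝ => supQ2 ℓ δ v * ((v:ℂ) - x) :=
    (sup_continuous_Q2 ℓ δ).mul (by fun_prop)
  rw [h1, h2, intervalIntegral.integral_eq_sub_of_hasDerivAt h3 (hc2.intervalIntegrable _ _)]
  have hl : (ℓ:ℂ) ≠ 0 := by exact_mod_cast hℓ.ne'
  have e4 : supQ1 ℓ δ ℓ = 0 := by
    unfold supQ1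
    rw [div_self hl]; simp
  have e5 : supQ0 ℓ δ ℓ = 0 := by
    unfold supQ0
    rw [div_self hl]; simp
  rw [e4, e5]
  simp

lemma sup_norm_Q2_le {ℓ v : ℝ} (hℓ : 0 < ℓ) (hv0 : 0 ≤ v) (hv : v ≤ ℓ) {δ : ℂ} (hδ : δ.re ≤ 0) :
    ‖supQ2 ℓ δ v‖ ≤ 2 * (1 + ‖δ‖ * ℓ) ^ 2 / ℓ ^ 2 := by
  have h1 : ‖Complex.exp (δ * v)‖ ≤ 1 := by
    rw [Complex.norm_exp]
    have : (δ * (v:ℂ)).re = δ.re * v := by simp
    rw [this, ← Real.exp_zero]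
    exact Real.exp_le_exp.mpr (mul_nonpos_of_nonpos_of_nonneg hδ hv0)
  have h2 : ‖(1 - (v:ℂ) / ℓ)‖ ≤ 1 := by
    have e : (1 - (v:ℂ) / ℓ) = ((1 - v / ℓ : ℝ) : ℂ) := by push_cast; ring
    rw [e, Complex.norm_real, Real.norm_eq_abs, abs_le]
    have h3 : 0 ≤ v / ℓ := by positivity
    have h4 : v / ℓ ≤ 1 := by rw [div_le_one hℓ]; exact hv
    constructor <;> linarith
  have hd := norm_nonneg δ
  have h3 : ‖(2 / (ℓ:ℂ) ^ 2 - 4 * δ / ℓ * (1 - (v:ℂ) / ℓ) + δ ^ 2 * (1 - (v:ℂ) / ℓ) ^ 2)‖ ≤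
      2 / ℓ ^ 2 + 4 * ‖δ‖ / ℓ + ‖δ‖ ^ 2 := by
    refine (norm_add_le _ _).trans ?_
    refine add_le_add ((norm_sub_le _ _).trans (add_le_add ?_ ?_)) ?_
    · rw [norm_div, norm_pow, Complex.norm_real, Real.norm_eq_abs, abs_of_pos hℓ]
      simp
    · rw [norm_mul, norm_div, norm_mul, Complex.norm_real, Real.norm_eq_abs, abs_of_pos hℓ]
      have : ‖(4:ℂ)‖ = 4 := by simp
      rw [this]
      have h5 : 0 ≤ 4 * ‖δ‖ / ℓ := by positivity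
      nlinarith
    · rw [norm_mul, norm_pow, norm_pow]
      have h5 : ‖(1 - (v:ℂ) / ℓ)‖ ^ 2 ≤ 1 := pow_le_one₀ (norm_nonneg _) h2
      have h6 : 0 ≤ ‖δ‖ ^ 2 := by positivity
      nlinarith
  unfold supQ2
  rw [norm_mul]
  calc _ ≤ (2 / ℓ ^ 2 + 4 * ‖δ‖ / ℓ + ‖δ‖ ^ 2) * 1 := by gcongr
    _ ≤ 2 * (1 + ‖δ‖ * ℓ) ^ 2 / ℓ ^ 2 := by
        rw [mul_one, le_div_iff₀ (by positivity)]
        have e : (2 / ℓ ^ 2 + 4 * ‖δ‖ / ℓ + ‖δ‖ ^ 2) * ℓ ^ 2 =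
            2 + 4 * ‖δ‖ * ℓ + ‖δ‖ ^ 2 * ℓ ^ 2 := by
          field_simp
        rw [e]
        nlinarith [mul_nonneg hd hℓ.le, sq_nonneg (‖δ‖ * ℓ)]

lemma DP_shift {ℓ : ℝ} (hℓ : 0 < ℓ) (δ s : ℂ) :
    DP (mc ℓ) ⌊exp ℓ⌋₊ (s - δ) = ∫ v in (0:ℝ)..ℓ, supQ2 ℓ δ v * BD ⌊exp ℓ⌋₊ v s := by
  have hIcc : Finset.Icc 1 ⌊exp ℓ⌋₊ = Finset.Ioc 0 ⌊exp ℓ⌋₊ := by ext; simp; omega
  unfold DP BD
  rw [hIcc]
  have h1 : ∀ v : ℝ, supQ2 ℓ δ v * ∑ d ∈ Finset.Ioc 0 ⌊exp ℓ⌋₊,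
      (((ArithmeticFunction.moebius d : ℝ) * max (v - Real.log d) 0 : ℝ) : ℂ) * (d:ℂ) ^ (-s) =
      ∑ d ∈ Finset.Ioc 0 ⌊exp ℓ⌋₊, ((ArithmeticFunction.moebius d : ℝ) : ℂ) * (d:ℂ) ^ (-s) *
        (supQ2 ℓ δ v * ((max (v - Real.log d) 0 : ℝ) : ℂ)) := by
    intro v
    rw [Finset.mul_sum]
    refine Finset.sum_congr rfl fun d _ => ?_
    push_cast
    ring
  simp only [h1]
  rw [intervalIntegral.integral_finsetSum]
  · refine Finset.sum_congr rfl fun d hd => ?_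
    simp only [Finset.mem_Ioc] at hd
    have hd1 : (1:ℝ) ≤ d := by exact_mod_cast hd.1
    have hd0 : (0:ℝ) < d := by linarith
    have hdl : (d:ℝ) ≤ exp ℓ := (Nat.le_floor_iff (exp_pos _).le).mp hd.2
    have hlog : Real.log d ≤ ℓ := by
      have := Real.log_le_log hd0 hdl
      rwa [Real.log_exp] at this
    have hlog0 : 0 ≤ Real.log d := Real.log_nonneg hd1
    rw [intervalIntegral.integral_const_mul, sup_Q0_eq_integral hℓ hlog0 hlog]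
    unfold mc supQ0
    have hmax : max (1 - Real.log d / ℓ) 0 = 1 - Real.log d / ℓ := by
      apply max_eq_left
      rw [sub_nonneg, div_le_one hℓ]
      exact hlog
    rw [hmax]
    have hne : (d:ℂ) ≠ 0 := by exact_mod_cast hd0.ne'
    have e1 : (d:ℂ) ^ (-(s - δ)) = (d:ℂ) ^ (-s) * Complex.exp (δ * (Real.log d : ℝ)) := by
      rw [show -(s - δ) = -s + δ by ring, Complex.cpow_add _ _ hne]
      congr 1
      rw [Complex.cpow_def_of_ne_zero hne, Complex.natCast_log, mul_comm]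
    rw [e1]
    push_cast
    ring
  · intro d _
    apply Continuous.intervalIntegrable
    apply Continuous.mul continuous_const
    exact (sup_continuous_Q2 ℓ δ).mul (Complex.continuous_ofReal.comp (by fun_prop))

lemma sup_int_Q2_id {ℓ : ℝ} (hℓ : 0 < ℓ) (δ : ℂ) : ∫ v in (0:ℝ)..ℓ, supQ2 ℓ δ v * (v:ℂ) = 1 := by
  have h1 := sup_Q0_eq_integral hℓ le_rfl hℓ.le δ
  have h2 : supQ0 ℓ δ 0 = 1 := by unfold supQ0; simp
  rw [h2] at h1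
  rw [← h1]
  apply intervalIntegral.integral_congr
  intro v hv
  rw [uIcc_of_le hℓ.le] at hv
  have : max (v - 0) 0 = v := by rw [sub_zero]; exact max_eq_left hv.1
  simp only [this]

lemma continuous_BD_v (D : ℕ) (s : ℂ) : Continuous fun v : ℝ => BD D v s :=
  (continuous_BD D).comp (f := fun v : ℝ => ((v, s) : ℝ × ℂ)) (by fun_prop)

lemma continuous_FD_v (D : ℕ) (s : ℂ) : Continuous fun v : ℝ => FD D v s := by
  unfold FD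
  exact (continuous_const.mul (continuous_BD_v D s)).sub (by fun_prop)

lemma zeta_DP_shift {ℓ : ℝ} (hℓ : 0 < ℓ) (δ s : ℂ) :
    riemannZeta s * DP (mc ℓ) ⌊exp ℓ⌋₊ (s - δ) - 1 =
      ∫ v in (0:ℝ)..ℓ, supQ2 ℓ δ v * FD ⌊exp ℓ⌋₊ v s := by
  rw [DP_shift hℓ]
  have h1 : ∀ v : ℝ, supQ2 ℓ δ v * FD ⌊exp ℓ⌋₊ v s =
      riemannZeta s * (supQ2 ℓ δ v * BD ⌊exp ℓ⌋₊ v s) - supQ2 ℓ δ v * (v:ℂ) := by
    intro v
    unfold FD
    ring
  simp only [h1]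
  rw [intervalIntegral.integral_sub, intervalIntegral.integral_const_mul, sup_int_Q2_id hℓ]
  · apply Continuous.intervalIntegrable
    exact continuous_const.mul ((sup_continuous_Q2 ℓ δ).mul (continuous_BD_v _ s))
  · apply Continuous.intervalIntegrable
    exact (sup_continuous_Q2 ℓ δ).mul (by fun_prop)

lemma sup_sq_integral_le {ℓ : ℝ} (hℓ : 0 < ℓ) {g : ℝ → ℝ} (hg : Continuous g) :
    (∫ v in (0:ℝ)..ℓ, g v) ^ 2 ≤ ℓ * ∫ v in (0:ℝ)..ℓ, g v ^ 2 := by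
  set A := ∫ v in (0:ℝ)..ℓ, g v with hA
  have h1 : 0 ≤ ∫ v in (0:ℝ)..ℓ, (g v - A / ℓ) ^ 2 :=
    intervalIntegral.integral_nonneg hℓ.le fun v _ => sq_nonneg _
  have h2 : ∫ v in (0:ℝ)..ℓ, (g v - A / ℓ) ^ 2 =
      (∫ v in (0:ℝ)..ℓ, g v ^ 2) - A ^ 2 / ℓ := by
    have e1 : ∀ v : ℝ, (g v - A / ℓ) ^ 2 = g v ^ 2 - (2 * (A / ℓ) * g v - (A / ℓ) ^ 2) := by
      intro v; ring
    simp only [e1]
    rw [intervalIntegral.integral_sub, intervalIntegral.integral_sub,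
      intervalIntegral.integral_const_mul, ← hA]
    · simp only [intervalIntegral.integral_const, sub_zero, smul_eq_mul]
      field_simp
      ring
    · exact (continuous_const.mul hg).intervalIntegrable _ _
    · exact continuous_const.intervalIntegrable _ _
    · exact (hg.pow 2).intervalIntegrable _ _
    · exact ((continuous_const.mul hg).sub continuous_const).intervalIntegrable _ _
  rw [h2] at h1
  have h3 : A ^ 2 / ℓ ≤ ∫ v in (0:ℝ)..ℓ, g v ^ 2 := by linarith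
  rw [div_le_iff₀ hℓ] at h3
  linarith

lemma norm_zeta_DP_sq {ℓ : ℝ} (hℓ : 0 < ℓ) {δ : ℂ} (hδ : δ.re ≤ 0) (s : ℂ) :
    ‖riemannZeta s * DP (mc ℓ) ⌊exp ℓ⌋₊ (s - δ) - 1‖ ^ 2 ≤
      (2 * (1 + ‖δ‖ * ℓ) ^ 2 / ℓ ^ 2) ^ 2 * ℓ * ∫ v in (0:ℝ)..ℓ, ‖FD ⌊exp ℓ⌋₊ v s‖ ^ 2 := by
  set c : ℝ := 2 * (1 + ‖δ‖ * ℓ) ^ 2 / ℓ ^ 2 with hc
  have hc0 : 0 ≤ c := by positivity
  have hF : Continuous fun v : ℝ => ‖FD ⌊exp ℓ⌋₊ v s‖ := (continuous_FD_v _ s).norm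
  rw [zeta_DP_shift hℓ]
  have h1 : ‖∫ v in (0:ℝ)..ℓ, supQ2 ℓ δ v * FD ⌊exp ℓ⌋₊ v s‖ ≤
      ∫ v in (0:ℝ)..ℓ, c * ‖FD ⌊exp ℓ⌋₊ v s‖ := by
    refine (intervalIntegral.norm_integral_le_integral_norm hℓ.le).trans ?_
    apply intervalIntegral.integral_mono_on hℓ.le
    · exact (((sup_continuous_Q2 ℓ δ).mul (continuous_FD_v _ s)).norm).intervalIntegrable _ _
    · exact (continuous_const.mul hF).intervalIntegrable _ _
    · intro v hv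
      rw [norm_mul]
      exact mul_le_mul_of_nonneg_right (sup_norm_Q2_le hℓ hv.1 hv.2 hδ) (norm_nonneg _)
  rw [intervalIntegral.integral_const_mul] at h1
  have h2 := sup_sq_integral_le hℓ hF
  calc ‖∫ v in (0:ℝ)..ℓ, supQ2 ℓ δ v * FD ⌊exp ℓ⌋₊ v s‖ ^ 2
      ≤ (c * ∫ v in (0:ℝ)..ℓ, ‖FD ⌊exp ℓ⌋₊ v s‖) ^ 2 := by gcongr
    _ = c ^ 2 * (∫ v in (0:ℝ)..ℓ, ‖FD ⌊exp ℓ⌋₊ v s‖) ^ 2 := by ring
    _ ≤ c ^ 2 * (ℓ * ∫ v in (0:ℝ)..ℓ, ‖FD ⌊exp ℓ⌋₊ v s‖ ^ 2) := by gcongr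
    _ = _ := by ring

theorem sup_moment {T ℓ σ κ : ℝ} (hT : exp 16 ≤ T) (hℓ0 : 0 < ℓ) (hℓ : ℓ ≤ Real.log T / 8)
    (hσ : 1 / 2 ≤ σ) (hσ5 : σ ≤ 5) (hκ : 2 / Real.log T ≤ κ) (hκ1 : κ ≤ 1)
    (hκσ : κ ≤ 2 * σ - 1 + 2 / Real.log T) {δ : ℂ} (hδ : δ.re ≤ 0) :
    ∫ t in Ioc 1 T, ‖riemannZeta (pt σ t) * DP (mc ℓ) ⌊exp ℓ⌋₊ (pt σ t - δ) - 1‖ ^ 2 ≤
      2160 * Cb * T * ((1 + ‖δ‖ * ℓ) ^ 2 / (ℓ * κ)) ^ 2 := by
  set D : ℕ := ⌊exp ℓ⌋₊ with hD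
  set c : ℝ := 2 * (1 + ‖δ‖ * ℓ) ^ 2 / ℓ ^ 2 with hc
  have hc0 : 0 ≤ c := by positivity
  have hT1 : (1:ℝ) ≤ T := by
    have := add_one_le_exp (16:ℝ)
    linarith
  have hlogT : 0 < Real.log T := by
    have := Real.log_le_log (exp_pos _) hT
    rw [Real.log_exp] at this
    linarith
  have hκ0 : 0 < κ := lt_of_lt_of_le (by positivity) hκ
  have hCb := Cb_pos
  -- the two-variable function
  set F : ℝ → ℝ → ℝ := fun v t => ‖FD D v (σ + t * Complex.I)‖ ^ 2 with hF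
  have hFc : ContinuousOn (fun x : ℝ × ℝ => F x.1 x.2) (Icc 0 ℓ ×ˢ Icc 1 T) :=
    ((continuousOn_FD2 D σ).norm.pow 2).mono
      (prod_mono (subset_univ _) (fun t ht => ht.1))
  have hFi : Integrable (fun x : ℝ × ℝ => F x.1 x.2)
      ((volume.restrict (Ioc 0 ℓ)).prod (volume.restrict (Ioc 1 T))) := by
    rw [Measure.prod_restrict]
    have h1 : IntegrableOn (fun x : ℝ × ℝ => F x.1 x.2) (Icc 0 ℓ ×ˢ Icc 1 T)
        ((volume : Measure ℝ).prod (volume : Measure ℝ)) := by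
      rw [← Measure.volume_eq_prod]
      exact hFc.integrableOn_compact (isCompact_Icc.prod isCompact_Icc)
    exact h1.mono_set (prod_mono Ioc_subset_Icc_self Ioc_subset_Icc_self)
  have hswap : ∫ t in Ioc 1 T, ∫ v in Ioc 0 ℓ, F v t = ∫ v in Ioc 0 ℓ, ∫ t in Ioc 1 T, F v t := by
    symm
    rw [integral_integral_swap]
    exact hFi
  have hG : Integrable (fun t : ℝ => ∫ v in Ioc 0 ℓ, F v t) (volume.restrict (Ioc 1 T)) :=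
    hFi.integral_prod_right
  have hH : Integrable (fun v : ℝ => ∫ t in Ioc 1 T, F v t) (volume.restrict (Ioc 0 ℓ)) :=
    hFi.integral_prod_left
  -- the pointwise bound
  have hpt : ∀ t : ℝ, ‖riemannZeta (pt σ t) * DP (mc ℓ) D (pt σ t - δ) - 1‖ ^ 2 ≤
      c ^ 2 * ℓ * ∫ v in Ioc 0 ℓ, F v t := by
    intro t
    have h1 := norm_zeta_DP_sq hℓ0 hδ (pt σ t)
    rw [intervalIntegral.integral_of_le hℓ0.le] at h1
    exact h1
  calc ∫ t in Ioc 1 T, ‖riemannZeta (pt σ t) * DP (mc ℓ) D (pt σ t - δ) - 1‖ ^ 2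
      ≤ ∫ t in Ioc 1 T, c ^ 2 * ℓ * ∫ v in Ioc 0 ℓ, F v t := by
        apply integral_mono_of_nonneg
        · exact Filter.Eventually.of_forall fun t => sq_nonneg _
        · exact hG.const_mul _
        · exact Filter.Eventually.of_forall fun t => hpt t
    _ = c ^ 2 * ℓ * ∫ v in Ioc 0 ℓ, ∫ t in Ioc 1 T, F v t := by
        rw [integral_const_mul, hswap]
    _ ≤ c ^ 2 * ℓ * ∫ v in Ioc 0 ℓ, 540 * Cb * (T * (1 / κ) ^ 2) := by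
        apply mul_le_mul_of_nonneg_left _ (by positivity)
        apply setIntegral_mono_on hH
        · exact integrableOn_const (by simp)
        · exact measurableSet_Ioc
        · intro v hv
          have hvD : ⌊exp v⌋₊ ≤ D := Nat.floor_le_floor (exp_le_exp.mpr hv.2)
          exact FD_moment hT hv.1.le (hv.2.trans hℓ) hvD hσ hσ5 hκ hκ1 hκσ
    _ = 2160 * Cb * T * ((1 + ‖δ‖ * ℓ) ^ 2 / (ℓ * κ)) ^ 2 := by
        rw [setIntegral_const]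
        simp only [Measure.real, Real.volume_Ioc, sub_zero, ENNReal.toReal_ofReal hℓ0.le,
          smul_eq_mul]
        rw [hc]
        field_simp
        ring

end Pool.Agent.H92.HD
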