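import Pool.Agent.H92.HD.Cau
import Pool.Agent.H92.HD.Sup
import Pool.Agent.H92.HD.Lap
import Pool.Agent.H77.HZ.Near

/-!
# Mean square of the mollified half circle integral
-/

namespace Pool.Agent.H92.HD

open MeasureTheory Set Real Metric Filter Topology
open Pool.Agent.H77.HZ

lemma mom_pt (r ψ t : ℝ) :
    pt (1 / 2) t + cr r ψ = pt (1 / 2 + r * cos ψ) (t + r * sin ψ) := by
  unfold pt cr
  rw [mul_comm Complex.I, Complex.exp_mul_I]
  push_cast
  ring

lemma mom_delta (r ψ t : ℝ) :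
    pt (1 / 2 + r) t = pt (1 / 2 + r * cos ψ) (t + r * sin ψ) - (cr r ψ - r) := by
  rw [← mom_pt]
  unfold pt
  push_cast
  ring

lemma mom_re (r ψ : ℝ) : (cr r ψ - (r:ℂ)).re = r * cos ψ - r := by
  unfold cr
  rw [mul_comm Complex.I, Complex.exp_mul_I, Complex.sub_re, Complex.re_ofReal_mul,
    Complex.ofReal_re]
  congr 2
  simp [← Complex.ofReal_cos, ← Complex.ofReal_sin]

lemma mom_norm {r : ℝ} (hr : 0 ≤ r) (ψ : ℝ) : ‖cr r ψ - (r:ℂ)‖ ≤ r * |ψ| := by
  unfold cr
  have h1 : (r:ℂ) * Complex.exp (Complex.I * ψ) - r = r * (Complex.exp (Complex.I * ψ) - 1) := by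
    ring
  rw [h1, norm_mul, Complex.norm_real, Real.norm_eq_abs, abs_of_nonneg hr]
  gcongr
  exact Real.norm_exp_I_mul_ofReal_sub_one_le

/-- the mollified zeta function minus one at the point `ψ` of the half circle -/
noncomputable def gg (ℓ r ψ t : ℝ) : ℂ :=
  riemannZeta (pt (1 / 2) t + cr r ψ) * DP (mc ℓ) ⌊exp ℓ⌋₊ (pt (1 / 2 + r) t) - 1

/-- the parameters -/
structure Par (k : ℕ) (T r ℓ : ℝ) : Prop where
  hk : 64 ≤ k
  hT : exp (64 * k) ≤ T
  hr : r = 2 * k / Real.log T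
  hℓ : ℓ = Real.log T / √k

namespace Par

variable {k : ℕ} {T r ℓ : ℝ} (P : Par k T r ℓ)
include P

lemma k64 : (64:ℝ) ≤ k := by exact_mod_cast P.hk

lemma sk : 8 ≤ √(k:ℝ) := by
  apply Real.le_sqrt_of_sq_le
  have := P.k64
  linarith

lemma skk : √(k:ℝ) * √k = k := Real.mul_self_sqrt (by have := P.k64; linarith)

lemma logT : 64 * (k:ℝ) ≤ Real.log T := by
  have := Real.log_le_log (exp_pos _) P.hT
  rwa [Real.log_exp] at this

lemma log4 : 4096 ≤ Real.log T := by
  have h1 := P.logT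
  have h2 := P.k64
  linarith

lemma T0 : 0 < T := (exp_pos _).trans_le P.hT

lemma T100 : exp 100 ≤ T := by
  rw [← Real.exp_log P.T0]
  apply exp_le_exp.mpr
  linarith [P.log4]

lemma T101 : 101 ≤ T := by
  have h1 := P.T100
  have h2 := Real.add_one_le_exp (100:ℝ)
  linarith

lemma r0 : 0 < r := by
  rw [P.hr]
  have h1 := P.log4
  have h2 := P.k64
  apply div_pos <;> linarith

lemma r32 : r ≤ 1 / 32 := by
  rw [P.hr]
  have h1 := P.log4
  rw [div_le_iff₀ (by linarith)]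
  have := P.logT
  linarith

lemma rlog : r * Real.log T = 2 * k := by
  rw [P.hr]
  have h1 := P.log4
  field_simp

lemma ell0 : 0 < ℓ := by
  rw [P.hℓ]
  have h1 := P.log4
  have h2 := P.sk
  apply div_pos <;> linarith

lemma rell : r * ℓ = 2 * √k := by
  rw [P.hr, P.hℓ]
  have h1 := P.log4
  have h2 := P.sk
  have h3 := P.skk
  have h4 : √(k:ℝ) ≠ 0 := by linarith
  have h5 : Real.log T ≠ 0 := by linarith
  field_simp
  linarith

lemma log3T : Real.log T ≤ Real.log (3 * T) ∧ Real.log (3 * T) ≤ 2 * Real.log T := by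
  rw [Real.log_mul (by norm_num) P.T0.ne']
  have h1 : 0 ≤ Real.log 3 := Real.log_nonneg (by norm_num)
  have h2 : Real.log 3 ≤ 3 - 1 := Real.log_le_sub_one_of_pos (by norm_num)
  have h3 := P.log4
  constructor <;> linarith

/-- mean square at a point of the half circle -/
lemma gg_moment {ψ : ℝ} (hψ : ψ ∈ Icc (-(π / 2)) (π / 2)) :
    ∫ t in Ioc T (2 * T), ‖gg ℓ r ψ t‖ ^ 2 ≤
      6480 * Cb * T * ((1 + 2 * √k * |ψ|) ^ 4 *
        (1 / (ℓ * (2 * r * cos ψ + 2 / Real.log (3 * T))) ^ 2)) := by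
  have hcos : 0 ≤ cos ψ := Real.cos_nonneg_of_mem_Icc hψ
  have hcos1 : cos ψ ≤ 1 := Real.cos_le_one ψ
  have hr0 := P.r0
  have hr32 := P.r32
  have hlog := P.log4
  obtain ⟨hl3, hl3'⟩ := P.log3T
  have hT0 := P.T0
  have hT101 := P.T101
  have hell := P.ell0
  have hl30 : 0 < Real.log (3 * T) := by linarith
  set κ : ℝ := 2 * r * cos ψ + 2 / Real.log (3 * T) with hκ
  have hrc : 0 ≤ r * cos ψ := by positivity
  have hrc1 : r * cos ψ ≤ 1 / 32 := by nlinarith
  have h2l : 2 / Real.log (3 * T) ≤ 1 / 2 := by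
    rw [div_le_div_iff₀ hl30 (by norm_num)]; linarith
  have h2l0 : 0 < 2 / Real.log (3 * T) := by positivity
  have hκ0 : 0 < κ := by rw [hκ]; nlinarith
  have hm := sup_moment (T := 3 * T) (ℓ := ℓ) (σ := 1 / 2 + r * cos ψ) (κ := κ)
    (δ := cr r ψ - r)
    (by
      have : exp 16 ≤ exp 100 := exp_le_exp.mpr (by norm_num)
      linarith [P.T100])
    hell
    (by
      rw [P.hℓ]
      have h1 : Real.log T / √k ≤ Real.log T / 8 := by
        apply div_le_div_of_nonneg_left (by linarith) (by norm_num) P.sk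
      linarith)
    (by linarith) (by linarith) (by rw [hκ]; nlinarith) (by rw [hκ]; nlinarith)
    (by rw [hκ]; nlinarith)
    (by rw [mom_re]; nlinarith)
  set f : ℝ → ℝ := fun t => ‖riemannZeta (pt (1 / 2 + r * cos ψ) t) *
    DP (mc ℓ) ⌊exp ℓ⌋₊ (pt (1 / 2 + r * cos ψ) t - (cr r ψ - r)) - 1‖ ^ 2 with hf
  have hg : ∀ t, ‖gg ℓ r ψ t‖ ^ 2 = f (t + r * sin ψ) := by
    intro t
    simp only [hf, gg]
    rw [mom_pt, mom_delta r ψ t]
  have hsin : |r * sin ψ| ≤ 1 := by
    rw [abs_mul, abs_of_pos hr0]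
    have := Real.abs_sin_le_one ψ
    have h0 := abs_nonneg (sin ψ)
    nlinarith
  obtain ⟨hs1, hs2⟩ := abs_le.mp hsin
  have hfc : ContinuousOn f (Icc 1 (3 * T)) := by
    intro t ht
    have h1 : pt (1 / 2 + r * cos ψ) t ≠ 1 := by
      intro h
      have := congrArg Complex.im h
      rw [pt_im, Complex.one_im] at this
      linarith [ht.1]
    have h2 : ContinuousAt (fun t : ℝ => riemannZeta (pt (1 / 2 + r * cos ψ) t)) t :=
      ContinuousAt.comp (g := riemannZeta) (differentiableAt_riemannZeta h1).continuousAt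
        (continuous_pt _).continuousAt
    have h3 : Continuous (fun t : ℝ => DP (mc ℓ) ⌊exp ℓ⌋₊ (pt (1 / 2 + r * cos ψ) t - (cr r ψ - r))) :=
      (differentiable_DP _ _).continuous.comp ((continuous_pt _).sub continuous_const)
    exact ((((h2.mul h3.continuousAt).sub continuousAt_const).norm).pow 2).continuousWithinAt
  have hfi : IntegrableOn f (Ioc 1 (3 * T)) :=
    hfc.integrableOn_Icc.mono_set Ioc_subset_Icc_self
  have h1 : ∫ t in Ioc T (2 * T), ‖gg ℓ r ψ t‖ ^ 2 = ∫ t in Ioc (T + r * sin ψ) (2 * T + r * sin ψ), f t := by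
    simp_rw [hg]
    rw [← intervalIntegral.integral_of_le (by linarith),
      intervalIntegral.integral_comp_add_right, intervalIntegral.integral_of_le (by linarith)]
  have h2 : ∫ t in Ioc (T + r * sin ψ) (2 * T + r * sin ψ), f t ≤ ∫ t in Ioc 1 (3 * T), f t := by
    apply setIntegral_mono_set hfi
    · exact Filter.Eventually.of_forall fun t => by
        show (0:ℝ) ≤ ‖_‖ ^ 2
        positivity
    · exact Filter.Eventually.of_forall fun x hx => ⟨by linarith [hx.1], by linarith [hx.2]⟩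
  rw [h1]
  refine h2.trans (hm.trans ?_)
  have hC := Cb_pos
  have hδ : ‖cr r ψ - (r:ℂ)‖ * ℓ ≤ 2 * √k * |ψ| := by
    calc ‖cr r ψ - (r:ℂ)‖ * ℓ ≤ (r * |ψ|) * ℓ := by
          gcongr
          exact mom_norm hr0.le ψ
      _ = (r * ℓ) * |ψ| := by ring
      _ = _ := by rw [P.rell]
  calc 2160 * Cb * (3 * T) * ((1 + ‖cr r ψ - (r:ℂ)‖ * ℓ) ^ 2 / (ℓ * κ)) ^ 2
      ≤ 2160 * Cb * (3 * T) * ((1 + 2 * √k * |ψ|) ^ 2 / (ℓ * κ)) ^ 2 := by
        gcongr
    _ = _ := by
        field_simp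
        ring

end Par

end Pool.Agent.H92.HD
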