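import Pool.Agent.H92.HD.Mom

/-!
# Pointwise and mean square comparison with the mollifier
-/

namespace Pool.Agent.H92.HD

open MeasureTheory Set Real Metric Filter Topology
open Pool.Agent.H77.HZ

/-- Cauchy-Schwarz with a weight -/
lemma poi_cs {a b : ℝ} (hab : a ≤ b) {w g : ℝ → ℝ} (hw : Continuous w) (hg : ContinuousOn g (Icc a b))
    (hw0 : ∀ x, 0 ≤ w x) (hW : 0 < ∫ x in a..b, w x) :
    (∫ x in a..b, w x * g x) ^ 2 ≤ (∫ x in a..b, w x) * ∫ x in a..b, w x * g x ^ 2 := by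
  set W := ∫ x in a..b, w x with hWd
  set B := ∫ x in a..b, w x * g x with hB
  set A := ∫ x in a..b, w x * g x ^ 2 with hA
  have hgu : ContinuousOn g (uIcc a b) := by rwa [uIcc_of_le hab]
  have i0 : IntervalIntegrable w volume a b := hw.intervalIntegrable a b
  have i1 : IntervalIntegrable (fun x => w x * g x) volume a b :=
    (hw.continuousOn.mul hgu).intervalIntegrable
  have i2 : IntervalIntegrable (fun x => w x * g x ^ 2) volume a b :=
    (hw.continuousOn.mul (hgu.pow 2)).intervalIntegrable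
  have h1 : 0 ≤ ∫ x in a..b, w x * (g x - B / W) ^ 2 :=
    intervalIntegral.integral_nonneg hab fun x _ => mul_nonneg (hw0 x) (sq_nonneg _)
  have h2 : ∫ x in a..b, w x * (g x - B / W) ^ 2 = A - 2 * (B / W) * B + (B / W) ^ 2 * W := by
    have h3 : (fun x => w x * (g x - B / W) ^ 2) = fun x =>
        (w x * g x ^ 2 - 2 * (B / W) * (w x * g x)) + (B / W) ^ 2 * w x := by
      funext x; ring
    rw [h3, intervalIntegral.integral_add (i2.sub (i1.const_mul _)) (i0.const_mul _),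
      intervalIntegral.integral_sub i2 (i1.const_mul _), intervalIntegral.integral_const_mul,
      intervalIntegral.integral_const_mul]
  rw [h2] at h1
  have h4 : A - 2 * (B / W) * B + (B / W) ^ 2 * W = A - B ^ 2 / W := by
    field_simp
    ring
  rw [h4, sub_nonneg, div_le_iff₀ hW] at h1
  linarith

/-- the total weight -/
noncomputable def Wk (k : ℕ) : ℝ := ∫ ψ in (-(π / 2))..(π / 2), ‖wt k ψ‖

/-- the main integral -/
noncomputable def Ik (k : ℕ) : ℂ := ∫ ψ in (-(π / 2))..(π / 2), wt k ψ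

lemma Wk_pos (k : ℕ) : 0 < Wk k := by
  have hπ := Real.pi_pos
  unfold Wk
  apply intervalIntegral.intervalIntegral_pos_of_pos ((continuous_wt k).norm.intervalIntegrable _ _)
  · intro ψ
    rw [norm_wt]
    exact exp_pos _
  · linarith

/-- the weighted square of `gg` over the half circle -/
noncomputable def Aq (k : ℕ) (ℓ r t : ℝ) : ℝ :=
  ∫ ψ in (-(π / 2))..(π / 2), ‖wt k ψ‖ * ‖gg ℓ r ψ t‖ ^ 2

lemma continuousAt_gg {T r ℓ : ℝ} (hr0 : 0 ≤ r) (hr : r ≤ 1) (hT : 3 ≤ T) {p : ℝ × ℝ}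
    (hp : T ≤ p.2) : ContinuousAt (fun p : ℝ × ℝ => gg ℓ r p.1 p.2) p := by
  have h1 : pt (1 / 2) p.2 + cr r p.1 ≠ 1 := by
    intro h
    rw [mom_pt] at h
    have h2 := congrArg Complex.im h
    rw [pt_im, Complex.one_im] at h2
    have h3 := Real.neg_one_le_sin p.1
    nlinarith
  unfold gg
  apply ContinuousAt.sub _ continuousAt_const
  apply ContinuousAt.mul
  · apply ContinuousAt.comp (g := riemannZeta)
      (f := fun p : ℝ × ℝ => pt (1 / 2) p.2 + cr r p.1)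
      (differentiableAt_riemannZeta h1).continuousAt
    unfold pt cr
    fun_prop
  · have h3 : Continuous (fun p : ℝ × ℝ => DP (mc ℓ) ⌊exp ℓ⌋₊ (pt (1 / 2 + r) p.2)) :=
      (differentiable_DP _ _).continuous.comp ((continuous_pt _).comp continuous_snd)
    exact h3.continuousAt

namespace Par

variable {k : ℕ} {T r ℓ : ℝ} (P : Par k T r ℓ)
include P

lemma gg_cont : ContinuousOn (fun p : ℝ × ℝ => gg ℓ r p.1 p.2) (univ ×ˢ Icc T (2 * T)) := by
  intro p hp
  refine (continuousAt_gg P.r0.le (by linarith [P.r32]) (T := T) ?_ ?_).continuousWithinAt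
  · linarith [P.T101]
  · exact hp.2.1

lemma prod_int : Integrable (fun p : ℝ × ℝ => ‖wt k p.1‖ * ‖gg ℓ r p.1 p.2‖ ^ 2)
    ((volume.restrict (Ioc (-(π / 2)) (π / 2))).prod (volume.restrict (Ioc T (2 * T)))) := by
  rw [Measure.prod_restrict]
  have h1 : ContinuousOn (fun p : ℝ × ℝ => ‖wt k p.1‖ * ‖gg ℓ r p.1 p.2‖ ^ 2)
      (Icc (-(π / 2)) (π / 2) ×ˢ Icc T (2 * T)) := by
    apply ContinuousOn.mul
    · exact ((continuous_wt k).norm.comp continuous_fst).continuousOn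
    · exact ((P.gg_cont.mono (prod_mono (subset_univ _) Subset.rfl)).norm).pow 2
  have h2 := h1.integrableOn_compact (μ := (volume : Measure (ℝ × ℝ)))
    (isCompact_Icc.prod isCompact_Icc)
  exact h2.mono_set (prod_mono Ioc_subset_Icc_self Ioc_subset_Icc_self)

omit P in
lemma Aq_eq (t : ℝ) : Aq k ℓ r t = ∫ ψ in Ioc (-(π / 2)) (π / 2), ‖wt k ψ‖ * ‖gg ℓ r ψ t‖ ^ 2 := by
  have hπ := Real.pi_pos
  unfold Aq
  rw [intervalIntegral.integral_of_le (by linarith)]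

lemma Aq_int : IntegrableOn (Aq k ℓ r) (Ioc T (2 * T)) := by
  have h := P.prod_int.integral_prod_right
  have e : (fun y => ∫ x in Ioc (-(π / 2)) (π / 2), ‖wt k (x, y).1‖ * ‖gg ℓ r (x, y).1 (x, y).2‖ ^ 2) =
      Aq k ℓ r := by
    funext t
    rw [Par.Aq_eq]
  rw [e] at h
  exact h

omit P in
lemma Aq_nonneg (t : ℝ) : 0 ≤ Aq k ℓ r t := by
  rw [Par.Aq_eq]
  apply integral_nonneg
  intro ψ
  positivity

/-- the mean of `Aq` -/
lemma Aq_mean : ∫ t in Ioc T (2 * T), Aq k ℓ r t ≤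
    6480 * Cb * T * (10 ^ 6 * exp k / (k * √k)) := by
  have hπ := Real.pi_pos
  have hC := Cb_pos
  have hT0 := P.T0
  set q : ℝ → ℝ := fun ψ => 1 / (ℓ * (2 * r * cos ψ + 2 / Real.log (3 * T))) ^ 2 with hq
  have h1 : ∫ t in Ioc T (2 * T), Aq k ℓ r t = ∫ ψ in Ioc (-(π / 2)) (π / 2),
      ∫ t in Ioc T (2 * T), ‖wt k ψ‖ * ‖gg ℓ r ψ t‖ ^ 2 := by
    rw [integral_integral_swap P.prod_int]
    congr 1
    funext t
    exact Par.Aq_eq t
  rw [h1]
  have hr0 := P.r0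
  have hell := P.ell0
  obtain ⟨hl3, hl3'⟩ := P.log3T
  have hlog := P.log4
  have hl30 : 0 < Real.log (3 * T) := by linarith
  have hcos : ∀ ψ ∈ Icc (-(π / 2)) (π / 2), 0 ≤ cos ψ := fun ψ h => Real.cos_nonneg_of_mem_Icc h
  have hb : ∀ ψ ∈ Icc (-(π / 2)) (π / 2), 1 / √k ≤ ℓ * (2 * r * cos ψ + 2 / Real.log (3 * T)) := by
    intro ψ hψ
    have h2 := hcos ψ hψ
    have h3 : 1 / √(k:ℝ) = ℓ * (1 / Real.log T) := by
      rw [P.hℓ]
      have := P.sk
      field_simp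
    rw [h3]
    apply mul_le_mul_of_nonneg_left _ hell.le
    have h4 : 1 / Real.log T ≤ 2 / Real.log (3 * T) := by
      rw [div_le_div_iff₀ (by linarith) hl30]
      linarith
    have h5 : 0 ≤ 2 * r * cos ψ := by positivity
    linarith
  have hq0 : ∀ ψ, 0 ≤ q ψ := fun ψ => by
    show 0 ≤ 1 / _
    positivity
  have hqm : Measurable q := by
    simp only [hq]
    apply Measurable.const_div
    apply Measurable.pow_const
    apply Measurable.const_mul
    apply Measurable.add_const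
    exact (Real.continuous_cos.measurable).const_mul _
  have hq1 : ∀ ψ ∈ Icc (-(π / 2)) (π / 2), q ψ ≤ k := by
    intro ψ hψ
    have h2 := hb ψ hψ
    have hsk := P.sk
    have h3 : 0 < 1 / √(k:ℝ) := by positivity
    show 1 / _ ≤ _
    rw [div_le_iff₀ (pow_pos (h3.trans_le h2) 2)]
    have h4 : (1 / √(k:ℝ)) ^ 2 ≤ (ℓ * (2 * r * cos ψ + 2 / Real.log (3 * T))) ^ 2 := by gcongr
    have h5 : (1 / √(k:ℝ)) ^ 2 = 1 / k := by
      rw [div_pow, one_pow, sq, P.skk]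
    rw [h5] at h4
    have hk := P.k64
    calc (1:ℝ) = k * (1 / k) := by field_simp
      _ ≤ _ := by gcongr
  have hq2 : ∀ ψ ∈ Icc (-(π / 2)) (π / 2), q ψ * (k * cos ψ ^ 2) ≤ 1 := by
    intro ψ hψ
    have h2 := hb ψ hψ
    have hsk := P.sk
    have h3 : 0 < 1 / √(k:ℝ) := by positivity
    have h6 := hcos ψ hψ
    show 1 / _ * _ ≤ _
    rw [one_div_mul_eq_div, div_le_one (pow_pos (h3.trans_le h2) 2)]
    have h4 : 4 * √k * cos ψ ≤ ℓ * (2 * r * cos ψ + 2 / Real.log (3 * T)) := by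
      have h7 : ℓ * (2 * r * cos ψ) = 2 * (r * ℓ) * cos ψ := by ring
      have h8 : 0 ≤ ℓ * (2 / Real.log (3 * T)) := by positivity
      rw [mul_add, h7, P.rell]
      linarith
    have h9 : (4 * √k * cos ψ) ^ 2 ≤ (ℓ * (2 * r * cos ψ + 2 / Real.log (3 * T))) ^ 2 := by
      gcongr
    have h10 : (4 * √k * cos ψ) ^ 2 = 16 * (k * cos ψ ^ 2) := by
      have := P.skk
      calc (4 * √k * cos ψ) ^ 2 = 16 * ((√k * √k) * cos ψ ^ 2) := by ring
        _ = _ := by rw [this]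
    have h11 : 0 ≤ k * cos ψ ^ 2 := by positivity
    linarith
  have hmom := wt_mom P.hk hq0 hqm hq1 hq2
  have hint2 : IntegrableOn (fun ψ => ‖wt k ψ‖ * ((1 + 2 * √k * |ψ|) ^ 4 * q ψ))
      (Ioc (-(π / 2)) (π / 2)) := by
    have hc : Continuous fun ψ : ℝ => ‖wt k ψ‖ * (1 + 2 * √k * |ψ|) ^ 4 := by
      have := (continuous_wt k).norm
      fun_prop
    have h2 : IntegrableOn (fun ψ : ℝ => ‖wt k ψ‖ * (1 + 2 * √k * |ψ|) ^ 4)
        (Ioc (-(π / 2)) (π / 2)) :=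
      (hc.integrableOn_Icc).mono_set Ioc_subset_Icc_self
    have h3 : IntegrableOn (fun ψ : ℝ => q ψ * (‖wt k ψ‖ * (1 + 2 * √k * |ψ|) ^ 4))
        (Ioc (-(π / 2)) (π / 2)) := by
      apply Integrable.bdd_mul (c := (k:ℝ)) h2 hqm.aestronglyMeasurable
      rw [ae_restrict_iff' measurableSet_Ioc]
      refine Filter.Eventually.of_forall fun ψ hψ => ?_
      rw [Real.norm_eq_abs, abs_of_nonneg (hq0 ψ)]
      exact hq1 ψ (Ioc_subset_Icc_self hψ)
    refine h3.congr (Filter.Eventually.of_forall fun ψ => ?_)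
    ring
  have h5 : ∫ ψ in Ioc (-(π / 2)) (π / 2), ∫ t in Ioc T (2 * T), ‖wt k ψ‖ * ‖gg ℓ r ψ t‖ ^ 2 ≤
      ∫ ψ in Ioc (-(π / 2)) (π / 2),
        6480 * Cb * T * (‖wt k ψ‖ * ((1 + 2 * √k * |ψ|) ^ 4 * q ψ)) := by
    apply setIntegral_mono_on P.prod_int.integral_prod_left (hint2.const_mul _) measurableSet_Ioc
    intro ψ hψ
    show ∫ t in Ioc T (2 * T), ‖wt k ψ‖ * ‖gg ℓ r ψ t‖ ^ 2 ≤ _
    rw [integral_const_mul]
    have := P.gg_moment (Ioc_subset_Icc_self hψ)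
    calc ‖wt k ψ‖ * ∫ t in Ioc T (2 * T), ‖gg ℓ r ψ t‖ ^ 2 ≤
        ‖wt k ψ‖ * (6480 * Cb * T * ((1 + 2 * √k * |ψ|) ^ 4 * q ψ)) := by gcongr
      _ = _ := by ring
  refine h5.trans ?_
  rw [integral_const_mul, ← intervalIntegral.integral_of_le (by linarith)]
  gcongr

/-- **Pointwise comparison.** -/
theorem point {t : ℝ} (ht : t ∈ Ioc T (2 * T)) : ∃ Y : ℂ,
    iteratedDeriv k Zr t = (k.factorial / (π * r ^ k)) * (Complex.I ^ k * (eTh t * Y)).re ∧
    ‖Y * DP (mc ℓ) ⌊exp ℓ⌋₊ (pt (1 / 2 + r) t) - Ik k‖ ^ 2 ≤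
      8 * Wk k * Aq k ℓ r t + 32 * r ^ 2 * Wk k ^ 2 := by
  have hπ := Real.pi_pos
  have hr0 := P.r0
  have hr32 := P.r32
  have hT101 := P.T101
  have ht1 := ht.1
  obtain ⟨s, hsc, hs1, hs2⟩ := deriv_formula (t := t) (by linarith) hr0 (by linarith) k
  set M : ℂ := DP (mc ℓ) ⌊exp ℓ⌋₊ (pt (1 / 2 + r) t) with hM
  set Y : ℂ := ∫ ψ in (-(π / 2))..(π / 2), s ψ * (Complex.exp ((lam t / 2 : ℝ) * cr r ψ -
          Complex.I * k * ψ) * riemannZeta (pt (1 / 2) t + cr r ψ)) with hY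
  refine ⟨Y, hs2, ?_⟩
  set x : ℝ := lam t / 2 * r - k with hx
  have hxr : |x| ≤ r := by
    have h1 := lam_near (T := T) (by linarith) ht.1.le ht.2
    have h2 := P.rlog
    have h3 : x = (r / 2) * (lam t - Real.log T) := by rw [hx]; linarith
    rw [h3, abs_mul, abs_of_pos (by linarith : 0 < r / 2)]
    nlinarith
  set X : ℝ → ℂ := fun ψ => Complex.exp (x * Complex.exp (Complex.I * ψ)) with hX
  have hX1 : ∀ ψ, ‖X ψ - 1‖ ≤ 2 * r := by
    intro ψ
    have h1 : ‖(x:ℂ) * Complex.exp (Complex.I * ψ)‖ ≤ r := by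
      rw [norm_mul, norm_exp_I, mul_one, Complex.norm_real, Real.norm_eq_abs]
      exact hxr
    refine (Complex.norm_exp_sub_one_le (h1.trans (by linarith))).trans ?_
    linarith
  have hfac : ∀ ψ : ℝ, Complex.exp ((lam t / 2 : ℝ) * cr r ψ - Complex.I * k * ψ) =
      wt k ψ * X ψ := by
    intro ψ
    simp only [wt, hX, cr]
    rw [← Complex.exp_add]
    congr 1
    rw [hx]
    push_cast
    ring
  have hE1 : ∀ ψ, ‖s ψ * X ψ - 1‖ ≤ 4 * r := by
    intro ψ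
    have e1 : s ψ * X ψ - 1 = (s ψ - 1) * X ψ + (X ψ - 1) := by ring
    have h2 : ‖X ψ‖ ≤ 1 + 2 * r := by
      have : X ψ = 1 + (X ψ - 1) := by ring
      rw [this]
      refine (norm_add_le _ _).trans ?_
      rw [norm_one]
      linarith [hX1 ψ]
    rw [e1]
    refine (norm_add_le _ _).trans ?_
    rw [norm_mul]
    have h3 := hs1 ψ
    have h4 : ‖s ψ - 1‖ * ‖X ψ‖ ≤ r * (1 + 2 * r) := by gcongr
    nlinarith [hX1 ψ]
  have hE2 : ∀ ψ, ‖s ψ * X ψ‖ ≤ 2 := by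
    intro ψ
    have : s ψ * X ψ = 1 + (s ψ * X ψ - 1) := by ring
    rw [this]
    refine (norm_add_le _ _).trans ?_
    rw [norm_one]
    linarith [hE1 ψ]
  have hggc : Continuous fun ψ : ℝ => gg ℓ r ψ t := by
    rw [continuous_iff_continuousAt]
    intro ψ
    have h1 := continuousAt_gg (T := T) (r := r) (ℓ := ℓ) hr0.le (by linarith) (by linarith)
      (p := (ψ, t)) ht.1.le
    exact ContinuousAt.comp (f := fun ψ : ℝ => (ψ, t)) h1 (by fun_prop)
  have hXc : Continuous X := by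
    simp only [hX]
    fun_prop
  have hwc := continuous_wt k
  have hYM : Y * M - Ik k = ∫ ψ in (-(π / 2))..(π / 2),
      wt k ψ * (s ψ * X ψ * gg ℓ r ψ t + (s ψ * X ψ - 1)) := by
    have h1 : Y * M = ∫ ψ in (-(π / 2))..(π / 2), wt k ψ * (s ψ * X ψ * (gg ℓ r ψ t + 1)) := by
      rw [hY, ← intervalIntegral.integral_mul_const]
      congr 1
      funext ψ
      rw [hfac]
      simp only [gg, ← hM]
      ring
    rw [h1, Ik, ← intervalIntegral.integral_sub]
    · congr 1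
      funext ψ
      ring
    · apply Continuous.intervalIntegrable
      fun_prop
    · exact hwc.intervalIntegrable _ _
  have hle : ‖Y * M - Ik k‖ ≤
      2 * (∫ ψ in (-(π / 2))..(π / 2), ‖wt k ψ‖ * ‖gg ℓ r ψ t‖) + 4 * r * Wk k := by
    rw [hYM]
    have h1 : ‖∫ ψ in (-(π / 2))..(π / 2),
        wt k ψ * (s ψ * X ψ * gg ℓ r ψ t + (s ψ * X ψ - 1))‖ ≤
        ∫ ψ in (-(π / 2))..(π / 2), (2 * (‖wt k ψ‖ * ‖gg ℓ r ψ t‖) + 4 * r * ‖wt k ψ‖) := by
      apply intervalIntegral.norm_integral_le_of_norm_le (by linarith)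
      · refine Filter.Eventually.of_forall fun ψ _ => ?_
        rw [norm_mul]
        have h2 : ‖s ψ * X ψ * gg ℓ r ψ t + (s ψ * X ψ - 1)‖ ≤ 2 * ‖gg ℓ r ψ t‖ + 4 * r := by
          refine (norm_add_le _ _).trans ?_
          rw [norm_mul]
          have := hE2 ψ
          have := hE1 ψ
          gcongr
        calc ‖wt k ψ‖ * ‖s ψ * X ψ * gg ℓ r ψ t + (s ψ * X ψ - 1)‖ ≤
            ‖wt k ψ‖ * (2 * ‖gg ℓ r ψ t‖ + 4 * r) := by gcongr
          _ = _ := by ring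
      · apply Continuous.intervalIntegrable
        fun_prop
    refine h1.trans (le_of_eq ?_)
    rw [intervalIntegral.integral_add, intervalIntegral.integral_const_mul,
      intervalIntegral.integral_const_mul]
    · rfl
    · apply Continuous.intervalIntegrable
      fun_prop
    · apply Continuous.intervalIntegrable
      fun_prop
  have hcs := poi_cs (a := -(π / 2)) (b := π / 2) (by linarith) hwc.norm
    (hggc.norm.continuousOn) (fun ψ => norm_nonneg _) (Wk_pos k)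
  set B := ∫ ψ in (-(π / 2))..(π / 2), ‖wt k ψ‖ * ‖gg ℓ r ψ t‖ with hB
  have hcs' : B ^ 2 ≤ Wk k * Aq k ℓ r t := hcs
  have hB0 : 0 ≤ B := intervalIntegral.integral_nonneg (by linarith) fun ψ _ => by positivity
  have hW := Wk_pos k
  calc ‖Y * M - Ik k‖ ^ 2 ≤ (2 * B + 4 * r * Wk k) ^ 2 := by gcongr
    _ ≤ 8 * B ^ 2 + 32 * r ^ 2 * Wk k ^ 2 := by
        nlinarith [sq_nonneg (2 * B - 4 * r * Wk k)]
    _ ≤ _ := by linarith

end Par

end Pool.Agent.H92.HD
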