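import Mathlib

/-!
# Cauchy's formula for the derivatives of a function which is real on the real axis
-/

namespace Pool.Agent.H92.HD

open MeasureTheory Set Real Metric Filter Topology

/-- reflection principle in a disc -/
lemma cauR_refl {F : ℂ → ℂ} {ρ : ℝ} (hρ : 0 < ρ) (hF : DifferentiableOn ℂ F (ball 0 ρ))
    (hreal : ∀ x : ℝ, |x| < ρ → (F x).im = 0) {w : ℂ} (hw : w ∈ ball (0:ℂ) ρ) :
    F ((starRingEnd ℂ) w) = (starRingEnd ℂ) (F w) := by
  set g : ℂ → ℂ := fun z => (starRingEnd ℂ) (F ((starRingEnd ℂ) z)) with hg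
  have hcb : ∀ z : ℂ, z ∈ ball (0:ℂ) ρ → (starRingEnd ℂ) z ∈ ball (0:ℂ) ρ := by
    intro z hz
    rw [mem_ball_zero_iff] at hz ⊢
    rwa [Complex.norm_conj]
  have hgd : DifferentiableOn ℂ g (ball 0 ρ) := by
    intro z hz
    have h1 : DifferentiableAt ℂ F ((starRingEnd ℂ) z) :=
      (hF _ (hcb z hz)).differentiableAt (isOpen_ball.mem_nhds (hcb z hz))
    have h2 := h1.conj_conj
    rw [Complex.conj_conj] at h2
    exact h2.differentiableWithinAt
  have hFa : AnalyticOnNhd ℂ F (ball 0 ρ) := hF.analyticOnNhd isOpen_ball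
  have hga : AnalyticOnNhd ℂ g (ball 0 ρ) := hgd.analyticOnNhd isOpen_ball
  have hfreq : ∃ᶠ z in 𝓝[≠] (0:ℂ), F z = g z := by
    have htend : Tendsto (fun x : ℝ => (x : ℂ)) (𝓝[≠] (0:ℝ)) (𝓝[≠] (0:ℂ)) := by
      apply tendsto_nhdsWithin_of_tendsto_nhds_of_eventually_within
      · have : Tendsto (fun x : ℝ => (x : ℂ)) (𝓝 (0:ℝ)) (𝓝 ((0:ℝ):ℂ)) :=
          Complex.continuous_ofReal.tendsto 0
        rw [Complex.ofReal_zero] at this
        exact this.mono_left nhdsWithin_le_nhds
      · filter_upwards [self_mem_nhdsWithin] with x hx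
        simpa using hx
    apply htend.frequently
    apply Filter.Eventually.frequently
    have h3 : ∀ᶠ x : ℝ in 𝓝[≠] (0:ℝ), |x| < ρ := by
      apply nhdsWithin_le_nhds
      have : Tendsto (fun x : ℝ => |x|) (𝓝 0) (𝓝 |(0:ℝ)|) := continuous_abs.tendsto 0
      rw [abs_zero] at this
      exact this.eventually (gt_mem_nhds hρ)
    filter_upwards [h3] with x hx
    show F x = (starRingEnd ℂ) (F ((starRingEnd ℂ) (x:ℂ)))
    rw [Complex.conj_ofReal]
    exact (Complex.conj_eq_iff_im.mpr (hreal x hx)).symm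
  have heq := hFa.eqOn_of_preconnected_of_frequently_eq hga
    (convex_ball (0:ℂ) ρ).isPreconnected (mem_ball_self hρ) hfreq
  have := heq (hcb w hw)
  rw [this]
  show (starRingEnd ℂ) (F ((starRingEnd ℂ) ((starRingEnd ℂ) w))) = _
  rw [Complex.conj_conj]

/-- real derivatives of the real part along the real axis -/
lemma cauR_iter {F : ℂ → ℂ} {ρ : ℝ} (hF : DifferentiableOn ℂ F (ball 0 ρ)) (k : ℕ) :
    ∀ x : ℝ, |x| < ρ → iteratedDeriv k (fun x : ℝ => (F x).re) x = (iteratedDeriv k F x).re := by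
  have hFa : AnalyticOnNhd ℂ F (ball 0 ρ) := hF.analyticOnNhd isOpen_ball
  induction k with
  | zero => intro x _; simp
  | succ k ih =>
    intro x hx
    have hxb : (x:ℂ) ∈ ball (0:ℂ) ρ := by
      rw [mem_ball_zero_iff, Complex.norm_real]; exact hx
    rw [iteratedDeriv_succ, iteratedDeriv_succ]
    have h1 : (iteratedDeriv k fun x : ℝ => (F x).re) =ᶠ[𝓝 x]
        fun y : ℝ => (iteratedDeriv k F y).re := by
      have h2 : ∀ᶠ y : ℝ in 𝓝 x, |y| < ρ :=
        (continuous_abs.tendsto x).eventually (gt_mem_nhds hx)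
      filter_upwards [h2] with y hy
      exact ih y hy
    rw [h1.deriv_eq]
    have h3 : DifferentiableAt ℂ (iteratedDeriv k F) x := by
      rw [iteratedDeriv_eq_iterate]
      exact (hFa.iterated_deriv k _ hxb).differentiableAt
    exact h3.hasDerivAt.real_of_complex.deriv

/-- **Cauchy's formula.** -/
theorem cauR {F : ℂ → ℂ} {ρ r : ℝ} (hr0 : 0 < r) (hr : r < ρ)
    (hF : DifferentiableOn ℂ F (ball 0 ρ))
    (hreal : ∀ x : ℝ, |x| < ρ → (F x).im = 0) (k : ℕ) :
    iteratedDeriv k (fun x : ℝ => (F x).re) 0 =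
      (k.factorial / (π * r ^ k)) * (Complex.I ^ k * ∫ ψ in (-(π / 2))..(π / 2),
        Complex.exp (-(Complex.I * k * ψ)) *
          F (-(Complex.I * (r * Complex.exp (Complex.I * ψ))))).re := by
  have hπ := Real.pi_pos
  have hρ : 0 < ρ := hr0.trans hr
  have h0 := cauR_iter hF k 0 (by rwa [abs_zero])
  rw [h0, Complex.ofReal_zero]
  -- Cauchy
  have hFc : DifferentiableOn ℂ F (closedBall 0 r) := hF.mono (closedBall_subset_ball hr)
  have hC := hFc.circleIntegral_one_div_sub_center_pow_smul hr0 k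
  set G : ℝ → ℂ := fun θ => F (circleMap 0 r θ) / (circleMap 0 r θ) ^ k with hG
  have hcm : ∀ θ, circleMap 0 r θ ≠ 0 := fun θ => circleMap_ne_center hr0.ne'
  have e1 : ∮ z in C(0, r), (1 / (z - 0) ^ (k + 1)) • F z =
      Complex.I * ∫ θ in (0:ℝ)..(2 * π), G θ := by
    rw [circleIntegral, ← intervalIntegral.integral_const_mul]
    congr 1
    funext θ
    have := hcm θ
    simp only [deriv_circleMap, smul_eq_mul, sub_zero, hG]
    rw [pow_succ]
    field_simp
  rw [e1, smul_eq_mul] at hC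
  have hk0 : ((k.factorial : ℕ) : ℂ) ≠ 0 := by exact_mod_cast k.factorial_ne_zero
  have hπc : (π : ℂ) ≠ 0 := by exact_mod_cast hπ.ne'
  have e2 : iteratedDeriv k F 0 = (k.factorial / (2 * π) : ℂ) * ∫ θ in (0:ℝ)..(2 * π), G θ := by
    have h1 : Complex.I * ∫ θ in (0:ℝ)..(2 * π), G θ =
        Complex.I * ((2 * π / k.factorial : ℂ) * iteratedDeriv k F 0) := by
      rw [hC]; ring
    have h2 := mul_left_cancel₀ Complex.I_ne_zero h1
    rw [h2]
    field_simp
  -- periodicity and reflection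
  have hper : Function.Periodic G (2 * π) := by
    intro θ
    simp only [hG, periodic_circleMap 0 r θ]
  have hGc : Continuous G := by
    apply Continuous.div
    · exact hFc.continuousOn.comp_continuous (continuous_circleMap 0 r)
        (fun θ => circleMap_mem_closedBall 0 hr0.le θ)
    · exact (continuous_circleMap 0 r).pow k
    · intro θ; exact pow_ne_zero k (hcm θ)
  have e3 : ∫ θ in (0:ℝ)..(2 * π), G θ = ∫ θ in (-π)..π, G θ := by
    have := hper.intervalIntegral_add_eq 0 (-π)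
    rw [zero_add] at this
    rw [this]
    congr 1
    ring
  have hconjG : ∀ θ, G (-θ) = (starRingEnd ℂ) (G θ) := by
    intro θ
    have h1 : circleMap 0 r (-θ) = (starRingEnd ℂ) (circleMap 0 r θ) := by
      simp only [circleMap_zero, map_mul, Complex.conj_ofReal, ← Complex.exp_conj, Complex.conj_I]
      congr 2
      push_cast; ring
    simp only [hG]
    rw [h1, cauR_refl hρ hF hreal, map_div₀, map_pow]
    rw [mem_ball_zero_iff, norm_circleMap_zero, abs_of_pos hr0]
    exact hr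
  have hGi : ∀ a b : ℝ, IntervalIntegrable G volume a b := fun a b => hGc.intervalIntegrable a b
  have e4 : ∫ θ in (0:ℝ)..π, G θ = (starRingEnd ℂ) (∫ θ in (-π)..0, G θ) := by
    have h1 : ∫ θ in (0:ℝ)..π, G θ = ∫ θ in (-π)..0, G (-θ) := by
      rw [intervalIntegral.integral_comp_neg]
      simp
    rw [h1]
    simp_rw [hconjG]
    rw [intervalIntegral.integral_of_le (by linarith), intervalIntegral.integral_of_le (by linarith)]
    exact integral_conj
  have e5 : (∫ θ in (-π)..π, G θ) = ((2 * (∫ θ in (-π)..0, G θ).re : ℝ) : ℂ) := by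
    rw [← intervalIntegral.integral_add_adjacent_intervals (hGi (-π) 0) (hGi 0 π), e4,
      Complex.add_conj]
  rw [e2, e3, e5]
  -- the change of variables
  have e6 : ∫ θ in (-π)..0, G θ = ∫ ψ in (-(π / 2))..(π / 2), G (ψ - π / 2) := by
    rw [intervalIntegral.integral_comp_sub_right]
    congr 1 <;> ring
  have hrk : ((r:ℂ) ^ k) ≠ 0 := pow_ne_zero k (by exact_mod_cast hr0.ne')
  have e7 : ∀ ψ : ℝ, G (ψ - π / 2) = (((r ^ k)⁻¹ : ℝ) : ℂ) * (Complex.I ^ k *
      (Complex.exp (-(Complex.I * k * ψ)) *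
        F (-(Complex.I * (r * Complex.exp (Complex.I * ψ)))))) := by
    intro ψ
    have h1 : circleMap 0 r (ψ - π / 2) = -(Complex.I * (r * Complex.exp (Complex.I * ψ))) := by
      rw [circleMap_zero]
      have : (((ψ - π / 2 : ℝ) : ℂ) * Complex.I) = Complex.I * ψ + (-π / 2 * Complex.I) := by
        push_cast; ring
      rw [this, Complex.exp_add, Complex.exp_neg_pi_div_two_mul_I]
      ring
    simp only [hG, h1]
    have h2 : (-(Complex.I * (r * Complex.exp (Complex.I * ψ)))) ^ k =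
        ((Complex.I ^ k)⁻¹) * (r:ℂ) ^ k * Complex.exp (Complex.I * k * ψ) := by
      have h3 : (-(Complex.I * (r * Complex.exp (Complex.I * ψ)))) =
          (Complex.I)⁻¹ * r * Complex.exp (Complex.I * ψ) := by
        rw [Complex.inv_I]; ring
      rw [h3, mul_pow, mul_pow, inv_pow, ← Complex.exp_nat_mul]
      congr 2
      ring
    rw [h2, Complex.exp_neg]
    have h4 : Complex.I ^ k ≠ 0 := pow_ne_zero k Complex.I_ne_zero
    have h5 := Complex.exp_ne_zero (Complex.I * k * ψ)
    push_cast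
    field_simp
  rw [e6]
  simp_rw [e7]
  rw [intervalIntegral.integral_const_mul, intervalIntegral.integral_const_mul]
  set X : ℂ := Complex.I ^ k * ∫ ψ in (-(π / 2))..(π / 2),
        Complex.exp (-(Complex.I * k * ψ)) *
          F (-(Complex.I * (r * Complex.exp (Complex.I * ψ)))) with hX
  rw [Complex.re_ofReal_mul]
  have e8 : ((k.factorial / (2 * π) : ℂ) * ((2 * ((r ^ k)⁻¹ * X.re) : ℝ) : ℂ)) =
      (((k.factorial / (2 * π)) * (2 * ((r ^ k)⁻¹ * X.re)) : ℝ) : ℂ) := by push_cast; ring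
  rw [e8, Complex.ofReal_re]
  field_simp

end Pool.Agent.H92.HD
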