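import Pool.Agent.H92.HD.Gam
import Pool.Agent.H92.HD.CauR
import Pool.Agent.H77.HZ.Left

/-!
# The derivatives of Hardy's function as integrals over a half circle
-/

namespace Pool.Agent.H92.HD

open MeasureTheory Set Real Metric Filter Topology
open Pool.Agent.H77.HZ

lemma cau_re_half (t : ℝ) : (((1 / 2 : ℝ) : ℂ) + t * Complex.I) = pt (1 / 2) t := rfl

/-- Hardy's function is real -/
lemma Zr_real {t : ℝ} (ht : 0 < t) : eTh t * riemannZeta (pt (1 / 2) t) = (Zr t : ℂ) := by
  have h1 := ph_fe (σ := 1 / 2) ht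
  have h2 : ph (Complex.Gammaℝ (pt (1 / 2) t)) = eTh t := by
    rw [ph_Gammaℝ, eTh_eq]
    congr 3
    norm_num
  have e1 : (1 - 1 / 2 : ℝ) = 1 / 2 := by norm_num
  rw [e1, h2] at h1
  have h3 : (ph (riemannZeta (pt (1 / 2) t)) * eTh t).im = 0 :=
    Complex.conj_eq_iff_im.mp h1.symm
  have h4 : eTh t * riemannZeta (pt (1 / 2) t) =
      ((‖riemannZeta (pt (1 / 2) t)‖ : ℝ) : ℂ) * (ph (riemannZeta (pt (1 / 2) t)) * eTh t) := by
    rw [← mul_assoc, norm_mul_ph, mul_comm]
  have h5 : (eTh t * riemannZeta (pt (1 / 2) t)).im = 0 := by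
    rw [h4, Complex.im_ofReal_mul, h3, mul_zero]
  unfold Zr
  apply Complex.ext
  · simp
  · rw [h5]; simp

/-- **The derivatives of Hardy's function.** -/
theorem deriv_formula {t : ℝ} (ht : 100 ≤ t) {r : ℝ} (hr0 : 0 < r) (hr : r ≤ 1 / 4) (k : ℕ) :
    ∃ s : ℝ → ℂ, Continuous s ∧ (∀ ψ, ‖s ψ - 1‖ ≤ r) ∧
      iteratedDeriv k Zr t = (k.factorial / (π * r ^ k)) * (Complex.I ^ k * (eTh t *
        ∫ ψ in (-(π / 2))..(π / 2), s ψ * (Complex.exp ((lam t / 2 : ℝ) * cr r ψ -
          Complex.I * k * ψ) * riemannZeta (pt (1 / 2) t + cr r ψ)))).re := by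
  obtain ⟨S, hSd, hS1, hSh⟩ := gam_cont ht
  set F : ℂ → ℂ := fun w => eTh t * Complex.exp (Complex.I * w * (lam t / 2 : ℝ)) * S w *
    riemannZeta (pt (1 / 2) t + Complex.I * w) with hF
  have him : ∀ w ∈ ball (0:ℂ) (2 / 5), pt (1 / 2) t + Complex.I * w ≠ 1 := by
    intro w hw h
    rw [mem_ball_zero_iff] at hw
    have h1 := congrArg Complex.im h
    rw [Complex.add_im, pt_im, Complex.I_mul_im, Complex.one_im] at h1
    have h2 := Complex.abs_re_le_norm w
    have h3 := (abs_le.mp h2).1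
    linarith
  have hFd : DifferentiableOn ℂ F (ball 0 (2 / 5)) := by
    intro w hw
    have h1 : DifferentiableAt ℂ riemannZeta (pt (1 / 2) t + Complex.I * w) :=
      differentiableAt_riemannZeta (him w hw)
    have h2 : DifferentiableAt ℂ (fun w => riemannZeta (pt (1 / 2) t + Complex.I * w)) w := by
      apply DifferentiableAt.comp (g := riemannZeta) w h1
      fun_prop
    have h3 : DifferentiableAt ℂ S w := (hSd w hw).differentiableAt (isOpen_ball.mem_nhds hw)
    have h4 : DifferentiableAt ℂ (fun w => eTh t * Complex.exp (Complex.I * w * (lam t / 2 : ℝ))) w := by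
      fun_prop
    exact ((h4.mul h3).mul h2).differentiableWithinAt
  have hFx : ∀ x : ℝ, |x| < 2 / 5 → F x = (Zr (t + x) : ℂ) := by
    intro x hx
    have h1 := (abs_lt.mp hx).1
    have h2 := Zr_real (t := t + x) (by linarith)
    have h3 : pt (1 / 2) t + Complex.I * x = pt (1 / 2) (t + x) := by
      unfold pt; push_cast; ring
    show eTh t * Complex.exp (Complex.I * x * (lam t / 2 : ℝ)) * S x *
      riemannZeta (pt (1 / 2) t + Complex.I * x) = _
    rw [h3, ← h2, hSh x hx]
  have hmain := cauR (r := r) hr0 (by linarith : r < 2 / 5) hFd (fun x hx => by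
    rw [hFx x hx]; exact Complex.ofReal_im _) k
  have hleft : iteratedDeriv k (fun x : ℝ => (F x).re) 0 = iteratedDeriv k Zr t := by
    have h1 : (fun x : ℝ => (F x).re) =ᶠ[𝓝 0] fun x : ℝ => Zr (t + x) := by
      have h3 : ∀ᶠ x : ℝ in 𝓝 (0:ℝ), |x| < 2 / 5 := by
        have : Tendsto (fun x : ℝ => |x|) (𝓝 0) (𝓝 |(0:ℝ)|) := continuous_abs.tendsto 0
        rw [abs_zero] at this
        exact this.eventually (gt_mem_nhds (by norm_num))
      filter_upwards [h3] with x hx
      rw [hFx x hx, Complex.ofReal_re]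
    rw [h1.iteratedDeriv_eq k, iteratedDeriv_comp_const_add]
    simp
  rw [hleft] at hmain
  set S' : ℝ → ℂ := fun ψ => S (-(Complex.I * cr r ψ)) with hS'
  have hcrn : ∀ ψ, ‖cr r ψ‖ = r := by
    intro ψ
    unfold cr
    rw [norm_mul, norm_exp_I, mul_one, Complex.norm_real, Real.norm_eq_abs, abs_of_pos hr0]
  have hwn : ∀ ψ, ‖-(Complex.I * cr r ψ)‖ = r := by
    intro ψ
    rw [norm_neg, norm_mul, Complex.norm_I, one_mul, hcrn]
  have hwb : ∀ ψ, -(Complex.I * cr r ψ) ∈ ball (0:ℂ) (2 / 5) := by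
    intro ψ
    rw [mem_ball_zero_iff, hwn]
    linarith
  refine ⟨S', ?_, ?_, ?_⟩
  · apply hSd.continuousOn.comp_continuous _ hwb
    unfold cr
    fun_prop
  · intro ψ
    have := hS1 _ (hwb ψ)
    rwa [hwn] at this
  · rw [hmain]
    congr 3
    rw [← intervalIntegral.integral_const_mul]
    congr 1
    funext ψ
    have e1 : Complex.I * -(Complex.I * cr r ψ) = cr r ψ := by
      have := Complex.I_mul_I
      linear_combination (-cr r ψ) * this
    have e2 : (-(Complex.I * (r * Complex.exp (Complex.I * ψ)))) = -(Complex.I * cr r ψ) := rfl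
    rw [e2]
    show _ * (eTh t * Complex.exp (Complex.I * (-(Complex.I * cr r ψ)) * (lam t / 2 : ℝ)) *
      S (-(Complex.I * cr r ψ)) *
      riemannZeta (pt (1 / 2) t + Complex.I * (-(Complex.I * cr r ψ)))) = _
    rw [e1, sub_eq_add_neg ((lam t / 2 : ℝ) * cr r ψ : ℂ), Complex.exp_add,
      mul_comm (cr r ψ) ((lam t / 2 : ℝ) : ℂ)]
    ring

/-- The derivatives of Hardy's function are continuous. -/
theorem continuousAt_iter {t : ℝ} (ht : 100 ≤ t) (k : ℕ) :
    ContinuousAt (iteratedDeriv k Zr) t := by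
  obtain ⟨S, hSd, hS1, hSh⟩ := gam_cont ht
  set F : ℂ → ℂ := fun w => eTh t * Complex.exp (Complex.I * w * (lam t / 2 : ℝ)) * S w *
    riemannZeta (pt (1 / 2) t + Complex.I * w) with hF
  have him : ∀ w ∈ ball (0:ℂ) (2 / 5), pt (1 / 2) t + Complex.I * w ≠ 1 := by
    intro w hw h
    rw [mem_ball_zero_iff] at hw
    have h1 := congrArg Complex.im h
    rw [Complex.add_im, pt_im, Complex.I_mul_im, Complex.one_im] at h1
    have h2 := Complex.abs_re_le_norm w
    have h3 := (abs_le.mp h2).1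
    linarith
  have hFd : DifferentiableOn ℂ F (ball 0 (2 / 5)) := by
    intro w hw
    have h1 : DifferentiableAt ℂ riemannZeta (pt (1 / 2) t + Complex.I * w) :=
      differentiableAt_riemannZeta (him w hw)
    have h2 : DifferentiableAt ℂ (fun w => riemannZeta (pt (1 / 2) t + Complex.I * w)) w := by
      apply DifferentiableAt.comp (g := riemannZeta) w h1
      fun_prop
    have h3 : DifferentiableAt ℂ S w := (hSd w hw).differentiableAt (isOpen_ball.mem_nhds hw)
    have h4 : DifferentiableAt ℂ (fun w => eTh t * Complex.exp (Complex.I * w * (lam t / 2 : ℝ))) w := by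
      fun_prop
    exact ((h4.mul h3).mul h2).differentiableWithinAt
  have hFx : ∀ x : ℝ, |x| < 2 / 5 → F x = (Zr (t + x) : ℂ) := by
    intro x hx
    have h1 := (abs_lt.mp hx).1
    have h2 := Zr_real (t := t + x) (by linarith)
    have h3 : pt (1 / 2) t + Complex.I * x = pt (1 / 2) (t + x) := by
      unfold pt; push_cast; ring
    show eTh t * Complex.exp (Complex.I * x * (lam t / 2 : ℝ)) * S x *
      riemannZeta (pt (1 / 2) t + Complex.I * x) = _
    rw [h3, ← h2, hSh x hx]
  have hloc : ∀ x : ℝ, |x| < 2 / 5 → iteratedDeriv k Zr (t + x) = (iteratedDeriv k F x).re := by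
    intro x hx
    rw [← cauR_iter hFd k x hx]
    have h1 : (fun x : ℝ => (F x).re) =ᶠ[𝓝 x] fun x : ℝ => Zr (t + x) := by
      have h3 : ∀ᶠ y : ℝ in 𝓝 x, |y| < 2 / 5 :=
        (continuous_abs.tendsto x).eventually (gt_mem_nhds hx)
      filter_upwards [h3] with y hy
      rw [hFx y hy, Complex.ofReal_re]
    rw [h1.iteratedDeriv_eq k, iteratedDeriv_comp_const_add]
  have hFa : AnalyticOnNhd ℂ F (ball 0 (2 / 5)) := hFd.analyticOnNhd isOpen_ball
  have h4 : ContinuousAt (iteratedDeriv k F) ((0:ℝ):ℂ) := by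
    rw [iteratedDeriv_eq_iterate]
    apply (hFa.iterated_deriv k _ _).continuousAt
    rw [Complex.ofReal_zero]
    exact mem_ball_self (by norm_num)
  have h5 : ContinuousAt (fun y : ℝ => (iteratedDeriv k F ((y - t : ℝ) : ℂ)).re) t := by
    apply Complex.continuous_re.continuousAt.comp
    apply ContinuousAt.comp (g := iteratedDeriv k F) (f := fun y : ℝ => ((y - t : ℝ) : ℂ))
    · rw [sub_self]; exact h4
    · fun_prop
  have h6 : iteratedDeriv k Zr =ᶠ[𝓝 t] fun y : ℝ => (iteratedDeriv k F ((y - t : ℝ) : ℂ)).re := by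
    have h3 : ∀ᶠ y : ℝ in 𝓝 t, |y - t| < 2 / 5 := by
      have : Tendsto (fun y : ℝ => |y - t|) (𝓝 t) (𝓝 |t - t|) :=
        ((continuous_id.sub continuous_const).abs).tendsto t
      rw [sub_self, abs_zero] at this
      exact this.eventually (gt_mem_nhds (by norm_num))
    filter_upwards [h3] with y hy
    rw [← hloc (y - t) hy]
    congr 1
    ring
  exact h5.congr h6.symm

end Pool.Agent.H92.HD
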