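import Pool.Agent.H77.HZ.Rot
import Pool.Agent.H77.HZ.Phase

/-!
# Signs of the derivatives of Hardy's function: definitions
-/

namespace Pool.Agent.H92.HD

open MeasureTheory Set Real Metric
open Pool.Agent.H77.HZ

/-- Hardy's function `Z(t) = e^{iθ(t)} ζ(1/2 + it)` (real part of) -/
noncomputable def Zr (t : ℝ) : ℝ := (eTh t * riemannZeta (pt (1 / 2) t)).re

/-- `2 θ'(t)` up to `O(1/t)`: `log (|1/4 + it/2| / π)` -/
noncomputable def lam (t : ℝ) : ℝ := Real.log (‖(1 / 4 + Complex.I * t / 2 : ℂ)‖ / π)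

/-- the point `r e^{iψ}` -/
noncomputable def cr (r ψ : ℝ) : ℂ := r * Complex.exp (Complex.I * ψ)

/-- the weight `exp (k e^{iψ} - i k ψ)` -/
noncomputable def wt (k : ℕ) (ψ : ℝ) : ℂ :=
  Complex.exp (k * Complex.exp (Complex.I * ψ) - Complex.I * k * ψ)

/-- the coefficients `μ(n) max(1 - log n / ℓ, 0)²` of the mollifier -/
noncomputable def mc (ℓ : ℝ) (n : ℕ) : ℂ :=
  (((ArithmeticFunction.moebius n : ℝ) * max (1 - Real.log n / ℓ) 0 ^ 2 : ℝ) : ℂ)

end Pool.Agent.H92.HD
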