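import Pool.Agent.H92.HD.Poi

/-!
# Signs of the derivatives of Hardy's function
-/

namespace Pool.Agent.H92.HD

open MeasureTheory Set Real Metric Filter Topology
open Pool.Agent.H77.HZ

lemma mc_norm {ℓ : ℝ} (hℓ : 0 < ℓ) (n : ℕ) : ‖mc ℓ n‖ ≤ 1 := by
  unfold mc
  rw [Complex.norm_real, Real.norm_eq_abs, abs_mul]
  have h1 : |((ArithmeticFunction.moebius n : ℤ) : ℝ)| ≤ 1 := by
    have := ArithmeticFunction.abs_moebius_le_one (n := n)
    exact_mod_cast this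
  have h2 : 0 ≤ Real.log n := Real.log_natCast_nonneg n
  have h3 : max (1 - Real.log n / ℓ) 0 ≤ 1 := by
    apply max_le _ zero_le_one
    have : 0 ≤ Real.log n / ℓ := by positivity
    linarith
  have h4 : 0 ≤ max (1 - Real.log n / ℓ) 0 := le_max_right _ _
  have h5 : |max (1 - Real.log n / ℓ) 0 ^ 2| ≤ 1 := by
    rw [abs_of_nonneg (by positivity)]
    exact pow_le_one₀ h4 h3
  calc _ ≤ (1:ℝ) * 1 := by gcongr
    _ = 1 := by norm_num

lemma mc_one (ℓ : ℝ) : mc ℓ 1 = 1 := by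
  simp [mc]

/-- the `k`-th derivative of Hardy's function, cut off, as a measurable complex function -/
noncomputable def vd (k : ℕ) : ℝ → ℂ := by
  classical
  exact (Ioi (100:ℝ)).piecewise (fun t => ((iteratedDeriv k Zr t : ℝ) : ℂ)) (fun _ => 0)

lemma measurable_vd (k : ℕ) : Measurable (vd k) := by
  classical
  unfold vd
  apply ContinuousOn.measurable_piecewise _ continuousOn_const measurableSet_Ioi
  intro t ht
  exact (Complex.continuous_ofReal.continuousAt.comp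
    (continuousAt_iter (le_of_lt ht) k)).continuousWithinAt

lemma vd_of {k : ℕ} {t : ℝ} (ht : 100 < t) : vd k t = ((iteratedDeriv k Zr t : ℝ) : ℂ) := by
  classical
  unfold vd
  exact Set.piecewise_eq_of_mem _ _ _ (by exact ht)

lemma sqrt_ten_pi {k : ℕ} (hk : 1 ≤ k) : √(10 * π / k) ≤ 6 / √k := by
  have hk0 : (0:ℝ) < k := by exact_mod_cast hk
  rw [Real.sqrt_div (by positivity)]
  have h1 : √(10 * π) ≤ 6 := by
    rw [Real.sqrt_le_left (by norm_num)]
    have := Real.pi_lt_d2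
    linarith
  gcongr

namespace Par

variable {k : ℕ} {T r ℓ : ℝ} (P : Par k T r ℓ)
include P

lemma Wk_le : Wk k ≤ 6 * exp k / √k := by
  have hk1 : 1 ≤ k := le_trans (by norm_num) P.hk
  refine (wt_int hk1).trans ?_
  calc exp k * √(10 * π / k) ≤ exp k * (6 / √k) := by
        gcongr
        exact sqrt_ten_pi hk1
    _ = _ := by ring

lemma Ik_ge : exp k / √k ≤ ‖Ik k‖ := wt_lower (le_trans (by norm_num) P.hk)

lemma Ik_ne : Ik k ≠ 0 := by
  intro h
  have h1 := P.Ik_ge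
  rw [h, norm_zero] at h1
  have := P.sk
  have h2 : 0 < exp k / √(k:ℝ) := by positivity
  linarith

/-- the majorant of `|Y M / I - 1|²` -/
noncomputable def Maj (_P : Par k T r ℓ) (t : ℝ) : ℝ :=
  (8 * Wk k * Aq k ℓ r t + 32 * r ^ 2 * Wk k ^ 2) * (k / exp k ^ 2)

lemma Maj_int : IntegrableOn P.Maj (Ioc T (2 * T)) := by
  unfold Maj
  have h1 : IntegrableOn (fun _ : ℝ => 32 * r ^ 2 * Wk k ^ 2) (Ioc T (2 * T)) :=
    integrableOn_const (by simp)
  exact ((P.Aq_int.const_mul (8 * Wk k)).add h1).mul_const _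

lemma Maj_mean : ∫ t in Ioc T (2 * T), P.Maj t ≤
    (4 * 10 ^ 11 * Cb / k + 4608 * (k / Real.log T) ^ 2) * T := by
  have hT0 := P.T0
  have hW := Wk_pos k
  have hWl := P.Wk_le
  have hC := Cb_pos
  have hk := P.k64
  have hk0 : (0:ℝ) < k := by linarith
  have hsk := P.sk
  have hs0 : 0 < √(k:ℝ) := by linarith
  have hskk := P.skk
  have h1 : IntegrableOn (fun _ : ℝ => 32 * r ^ 2 * Wk k ^ 2) (Ioc T (2 * T)) :=
    integrableOn_const (by simp)
  have hvol : volume.real (Ioc T (2 * T)) = T := by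
    rw [measureReal_def, Real.volume_Ioc, ENNReal.toReal_ofReal (by linarith)]
    ring
  have h2 : ∫ t in Ioc T (2 * T), P.Maj t =
      (8 * Wk k * (∫ t in Ioc T (2 * T), Aq k ℓ r t) + T * (32 * r ^ 2 * Wk k ^ 2)) *
        (k / exp k ^ 2) := by
    unfold Maj
    rw [integral_mul_const, integral_add (P.Aq_int.const_mul _) h1, integral_const_mul,
      setIntegral_const, hvol, smul_eq_mul]
  rw [h2]
  have h3 := P.Aq_mean
  have h30 : 0 ≤ ∫ t in Ioc T (2 * T), Aq k ℓ r t := integral_nonneg fun t => Aq_nonneg t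
  have h4 : 8 * Wk k * (∫ t in Ioc T (2 * T), Aq k ℓ r t) ≤
      8 * (6 * exp k / √k) * (6480 * Cb * T * (10 ^ 6 * exp k / (k * √k))) := by gcongr
  have h5 : T * (32 * r ^ 2 * Wk k ^ 2) ≤ T * (32 * r ^ 2 * (6 * exp k / √k) ^ 2) := by gcongr
  have hlog := P.log4
  calc (8 * Wk k * (∫ t in Ioc T (2 * T), Aq k ℓ r t) + T * (32 * r ^ 2 * Wk k ^ 2)) *
        (k / exp k ^ 2)
      ≤ (8 * (6 * exp k / √k) * (6480 * Cb * T * (10 ^ 6 * exp k / (k * √k))) +
        T * (32 * r ^ 2 * (6 * exp k / √k) ^ 2)) * (k / exp k ^ 2) := by gcongr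
    _ = (311040000000 * Cb / (√k * √k)) * T + (32 * 36 * r ^ 2 * (k / (√k * √k))) * T := by
        field_simp
        ring
    _ = (311040000000 * Cb / k + 4608 * (k / Real.log T) ^ 2) * T := by
        rw [hskk, div_self hk0.ne', P.hr]
        ring
    _ ≤ _ := by
        gcongr
        norm_num

/-- pointwise comparison of the signs -/
lemma sign_point {ε : ℂ} (hε : ε = 1 ∨ ε = -1) {δ : ℝ} (hδ : 0 < δ) {t : ℝ}
    (ht : t ∈ Ioc T (2 * T)) :
    Pη δ (eTh t * (ε * Complex.I ^ k * ph (Ik k) *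
      (starRingEnd ℂ) (ph (DP (mc ℓ) ⌊exp ℓ⌋₊ (pt (1 / 2 + r) t))))) - 4 / δ ^ 2 * P.Maj t ≤
      Pη 0 (ε * vd k t) := by
  have hr0 := P.r0
  have hT101 := P.T101
  have ht1 := ht.1
  have hI := P.Ik_ne
  have hIk := P.Ik_ge
  have hsk := P.sk
  have hs0 : 0 < √(k:ℝ) := by linarith
  have hk := P.k64
  have hk0 : (0:ℝ) < k := by linarith
  have hεn : ‖ε‖ = 1 := by
    rcases hε with h | h
    · rw [h, norm_one]
    · rw [h, norm_neg, norm_one]
  have hεr : ∃ e : ℝ, ε = e := by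
    rcases hε with h | h
    · exact ⟨1, by rw [h]; simp⟩
    · exact ⟨-1, by rw [h]; simp⟩
  obtain ⟨Y, hY1, hY2⟩ := P.point ht
  set M : ℂ := DP (mc ℓ) ⌊exp ℓ⌋₊ (pt (1 / 2 + r) t) with hM
  -- the sign in terms of the phase of `Y`
  have hπ := Real.pi_pos
  have hfac : 0 < (k.factorial : ℝ) / (π * r ^ k) := by positivity
  have e1 : Pη 0 (ε * vd k t) = Pη 0 (ε * Complex.I ^ k * eTh t * ph Y) := by
    rw [vd_of (by linarith), hY1, ← Pη_ph]
    obtain ⟨e, rfl⟩ := hεr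
    unfold Pη
    have h2 : ((e:ℂ) * (((k.factorial : ℝ) / (π * r ^ k) *
        (Complex.I ^ k * (eTh t * Y)).re : ℝ) : ℂ)).re =
        ((k.factorial : ℝ) / (π * r ^ k)) * (e * (Complex.I ^ k * (eTh t * Y)).re) := by
      rw [Complex.re_ofReal_mul, Complex.ofReal_re]
      ring
    have h3 : ((e:ℂ) * Complex.I ^ k * eTh t * Y).re = e * (Complex.I ^ k * (eTh t * Y)).re := by
      rw [← Complex.re_ofReal_mul]
      congr 1
      ring
    rw [h2, h3]
    simp only [mul_pos_iff_of_pos_left hfac]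
  rw [e1]
  have h1 := Pη_chebyshev_sq (η := 0) (δ := δ) hδ (ε * Complex.I ^ k * eTh t * ph Y)
    (eTh t * (ε * Complex.I ^ k * ph (Ik k) * (starRingEnd ℂ) (ph M)))
  rw [zero_add] at h1
  have hphI : ‖ph (Ik k)‖ = 1 := norm_ph_of_ne hI
  have e2 : ph Y = ph (Ik k) * ph (Y / Ik k) := by
    rw [← ph_mul]
    congr 1
    field_simp
  have e3 : ‖ε * Complex.I ^ k * eTh t * ph Y -
      eTh t * (ε * Complex.I ^ k * ph (Ik k) * (starRingEnd ℂ) (ph M))‖ =
      ‖ph (Y / Ik k) - (starRingEnd ℂ) (ph M)‖ := by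
    rw [e2]
    have : ε * Complex.I ^ k * eTh t * (ph (Ik k) * ph (Y / Ik k)) -
        eTh t * (ε * Complex.I ^ k * ph (Ik k) * (starRingEnd ℂ) (ph M)) =
        ε * Complex.I ^ k * eTh t * ph (Ik k) * (ph (Y / Ik k) - (starRingEnd ℂ) (ph M)) := by ring
    rw [this, norm_mul, norm_mul, norm_mul, norm_mul, hεn, norm_pow, Complex.norm_I, norm_eTh,
      hphI]
    simp
  have h2 : ‖ph (Y / Ik k) - (starRingEnd ℂ) (ph M)‖ ≤ 2 * ‖Y / Ik k * M - 1‖ :=
    ph_conj_le _ _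
  have h3 : ‖Y / Ik k * M - 1‖ ^ 2 ≤ P.Maj t := by
    have e4 : Y / Ik k * M - 1 = (Y * M - Ik k) / Ik k := by
      field_simp
    rw [e4, norm_div, div_pow]
    have h5 : exp k ^ 2 / k ≤ ‖Ik k‖ ^ 2 := by
      calc exp k ^ 2 / (k:ℝ) = (exp k / √k) ^ 2 := by
            rw [div_pow, sq (√(k:ℝ)), P.skk]
        _ ≤ _ := by gcongr
    have h6 : 0 ≤ 8 * Wk k * Aq k ℓ r t + 32 * r ^ 2 * Wk k ^ 2 := (sq_nonneg _).trans hY2
    calc ‖Y * M - Ik k‖ ^ 2 / ‖Ik k‖ ^ 2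
        ≤ (8 * Wk k * Aq k ℓ r t + 32 * r ^ 2 * Wk k ^ 2) / (exp k ^ 2 / k) := by gcongr
      _ = P.Maj t := by
          unfold Maj
          field_simp
  rw [e3] at h1
  have h4 : ‖ph (Y / Ik k) - (starRingEnd ℂ) (ph M)‖ ^ 2 / δ ^ 2 ≤ 4 / δ ^ 2 * P.Maj t := by
    calc ‖ph (Y / Ik k) - (starRingEnd ℂ) (ph M)‖ ^ 2 / δ ^ 2
        ≤ (2 * ‖Y / Ik k * M - 1‖) ^ 2 / δ ^ 2 := by gcongr
      _ = 4 / δ ^ 2 * ‖Y / Ik k * M - 1‖ ^ 2 := by ring
      _ ≤ _ := by gcongr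
  linarith

/-- lower bound for the measure of either sign -/
lemma sign_lower {ε : ℂ} (hε : ε = 1 ∨ ε = -1) {δ : ℝ} (hδ : 0 < δ) :
    T / 2 - δ / 2 * T - 2700 / √k * T -
      4 / δ ^ 2 * ((4 * 10 ^ 11 * Cb / k + 4608 * (k / Real.log T) ^ 2) * T) ≤
      ∫ t in Ioc T (2 * T), Pη 0 (ε * vd k t) := by
  have hεn : ‖ε‖ = 1 := by
    rcases hε with h | h
    · rw [h, norm_one]
    · rw [h, norm_neg, norm_one]
  have hI := P.Ik_ne
  have hphI : ‖ph (Ik k)‖ = 1 := norm_ph_of_ne hI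
  have hT0 := P.T0
  have hell := P.ell0
  have hr0 := P.r0
  have hr32 := P.r32
  have hlog := P.log4
  have hsk := P.sk
  have hs0 : 0 < √(k:ℝ) := by linarith
  have hk := P.k64
  have hπ := Real.pi_pos
  have hπ2 := Real.pi_lt_d2
  set N : ℕ := ⌊exp ℓ⌋₊ with hN
  have hc : ‖ε * Complex.I ^ k * ph (Ik k)‖ = 1 := by
    rw [norm_mul, norm_mul, hεn, norm_pow, Complex.norm_I, hphI]
    simp
  set c : ℂ := ε * Complex.I ^ k * ph (Ik k) with hcd
  set u : ℝ → ℂ := fun t => c * (starRingEnd ℂ) (ph (DP (mc ℓ) N (pt (1 / 2 + r) t))) with hu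
  have hum : Measurable u := by
    apply Measurable.const_mul
    exact Complex.continuous_conj.measurable.comp
      (measurable_ph.comp (continuous_DP_pt (mc ℓ) N (1 / 2 + r)).measurable)
  have hun : ∀ t, ‖u t‖ = ‖ph (DP (mc ℓ) N (pt (1 / 2 + r) t))‖ := by
    intro t
    show ‖c * _‖ = _
    rw [norm_mul, hc, one_mul, Complex.norm_conj]
  have hud : ∀ t s, ‖u t - u s‖ =
      ‖ph (DP (mc ℓ) N (pt (1 / 2 + r) t)) - ph (DP (mc ℓ) N (pt (1 / 2 + r) s))‖ := by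
    intro t s
    show ‖c * _ - c * _‖ = _
    rw [← mul_sub, norm_mul, hc, one_mul, ← map_sub, Complex.norm_conj]
  have hu01 : ∀ t, u t = 0 ∨ ‖u t‖ = 1 := by
    intro t
    rcases ph_zero_or (z := DP (mc ℓ) N (pt (1 / 2 + r) t)) with h | h
    · left
      show c * _ = 0
      rw [h, map_zero, mul_zero]
    · right
      rw [hun, h]
  have hN1 : 1 ≤ N := by
    rw [hN, Nat.one_le_floor_iff]
    exact one_le_exp hell.le
  have hlogN : Real.log N ≤ ℓ := by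
    have h1 : (N:ℝ) ≤ exp ℓ := Nat.floor_le (exp_pos _).le
    have h2 : (0:ℝ) < N := by exact_mod_cast hN1
    have := Real.log_le_log h2 h1
    rwa [Real.log_exp] at this
  have hT26 : exp 26 ≤ T := (exp_le_exp.mpr (by norm_num)).trans P.T100
  have h1 := DP_lower (a := mc ℓ) (N := N) (σ := 1 / 2 + r) hT26 (mc_norm hell) (mc_one ℓ) hN1
    (by linarith) (by linarith) hδ.le hum hu01 hun hud
  have hell1 : 1 ≤ ℓ := by
    rw [P.hℓ, le_div_iff₀ hs0]
    have h2 := P.logT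
    have h3 := P.skk
    nlinarith
  have h2 : 53 * (8 * π / Real.log T) * T * (Real.log N + 1) ≤ 2700 / √k * T := by
    calc 53 * (8 * π / Real.log T) * T * (Real.log N + 1)
        ≤ 53 * (8 * π / Real.log T) * T * (2 * ℓ) := by
          gcongr
          linarith
      _ = (848 * π) / √k * T := by
          rw [P.hℓ]
          field_simp
          ring
      _ ≤ 2700 / √k * T := by
          gcongr
          linarith
  have hvm : Measurable fun t => ε * vd k t := (measurable_vd k).const_mul _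
  have hwm : Measurable fun t => eTh t * u t := measurable_eTh.mul hum
  have h3 : ∫ t in Ioc T (2 * T), (Pη δ (eTh t * u t) - 4 / δ ^ 2 * P.Maj t) ≤
      ∫ t in Ioc T (2 * T), Pη 0 (ε * vd k t) :=
    setIntegral_mono_on ((integrableOn_Pη hwm δ T (2 * T)).sub (P.Maj_int.const_mul _))
      (integrableOn_Pη hvm 0 T (2 * T)) measurableSet_Ioc
      (fun t ht => P.sign_point hε hδ ht)
  rw [integral_sub (integrableOn_Pη hwm δ T (2 * T)) (P.Maj_int.const_mul _),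
    integral_const_mul] at h3
  have h4 : 4 / δ ^ 2 * ∫ t in Ioc T (2 * T), P.Maj t ≤
      4 / δ ^ 2 * ((4 * 10 ^ 11 * Cb / k + 4608 * (k / Real.log T) ^ 2) * T) := by
    gcongr
    exact P.Maj_mean
  linarith

end Par

/-- the constant -/
noncomputable def Cd : ℝ := 2 * 10 ^ 12 * Cb + 10 ^ 5

lemma Cd_pos : 0 < Cd := by
  have := Cb_pos
  unfold Cd
  positivity

/-- the size of the error -/
noncomputable def er (k : ℕ) (T : ℝ) : ℝ :=
  (k:ℝ) ^ (-(1 / 3) : ℝ) + (k / Real.log T) ^ (2 / 3 : ℝ)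

lemma er_one {k : ℕ} (hk : 1 ≤ k) : ((k:ℝ) ^ (-(1 / 3) : ℝ)) ^ 3 = 1 / k := by
  have hk0 : (0:ℝ) < k := by exact_mod_cast hk
  rw [← Real.rpow_natCast, ← Real.rpow_mul hk0.le]
  norm_num
  rw [Real.rpow_neg_one]

lemma er_two {x : ℝ} (hx : 0 ≤ x) : (x ^ (2 / 3 : ℝ)) ^ 3 = x ^ 2 := by
  rw [← Real.rpow_natCast, ← Real.rpow_mul hx]
  norm_num

/-- outside the main range the error term is large -/
lemma er_big {k : ℕ} (hk : 1 ≤ k) {T : ℝ} (hT : 2 ≤ T) (h : ¬ (64 ≤ k ∧ exp (64 * k) ≤ T)) :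
    1 / 16 ≤ er k T := by
  have hk0 : (0:ℝ) < k := by exact_mod_cast hk
  have hlog : 0 < Real.log T := Real.log_pos (by linarith)
  have hx : 0 < (k:ℝ) / Real.log T := by positivity
  have h1 : 0 ≤ (k:ℝ) ^ (-(1 / 3) : ℝ) := by positivity
  have h2 : 0 ≤ ((k:ℝ) / Real.log T) ^ (2 / 3 : ℝ) := by positivity
  have e1 := er_one hk
  have e2 := er_two hx.le
  unfold er
  set κ₁ := (k:ℝ) ^ (-(1 / 3) : ℝ) with hκ₁
  set κ₂ := ((k:ℝ) / Real.log T) ^ (2 / 3 : ℝ) with hκ₂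
  by_cases h3 : 64 ≤ k
  · have h4 : T < exp (64 * k) := by
      by_contra h5
      exact h ⟨h3, not_lt.mp h5⟩
    have h5 : Real.log T < 64 * k := by
      rwa [← Real.log_lt_iff_lt_exp (by linarith)] at h4
    have h6 : 1 / 64 ≤ (k:ℝ) / Real.log T := by
      rw [div_le_div_iff₀ (by norm_num) hlog]
      linarith
    have h7 : (1 / 16 : ℝ) ^ 3 ≤ κ₂ ^ 3 := by
      rw [e2]
      calc (1 / 16 : ℝ) ^ 3 = (1 / 64) ^ 2 := by norm_num
        _ ≤ _ := by gcongr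
    have h8 : (1 / 16 : ℝ) ≤ κ₂ := le_of_pow_le_pow_left₀ (by norm_num) h2 h7
    linarith
  · have h4 : (k:ℝ) ≤ 64 := by
      have : k ≤ 64 := by omega
      exact_mod_cast this
    have h7 : (1 / 16 : ℝ) ^ 3 ≤ κ₁ ^ 3 := by
      rw [e1, le_div_iff₀ hk0]
      linarith
    have h8 : (1 / 16 : ℝ) ≤ κ₁ := le_of_pow_le_pow_left₀ (by norm_num) h1 h7
    linarith

/-- lower bound for the measure of either sign in the main range -/
lemma main_lower {k : ℕ} (hk : 64 ≤ k) {T : ℝ} (hT : exp (64 * k) ≤ T) {ε : ℂ}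
    (hε : ε = 1 ∨ ε = -1) :
    T / 2 - Cd * er k T * T ≤ ∫ t in Ioc T (2 * T), Pη 0 (ε * vd k t) := by
  have P : Par k T (2 * k / Real.log T) (Real.log T / √k) := ⟨hk, hT, rfl, rfl⟩
  have hk1 : 1 ≤ k := le_trans (by norm_num) hk
  have hk64 := P.k64
  have hk0 : (0:ℝ) < k := by linarith
  have hlog : 0 < Real.log T := by linarith [P.log4]
  have hx : 0 < (k:ℝ) / Real.log T := by positivity
  have hT0 := P.T0
  have hC := Cb_pos
  have e1 := er_one hk1
  have e2 := er_two hx.le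
  have h1 : 0 < (k:ℝ) ^ (-(1 / 3) : ℝ) := by positivity
  have h2 : 0 < ((k:ℝ) / Real.log T) ^ (2 / 3 : ℝ) := by positivity
  have h3 : 1 / √k ≤ (k:ℝ) ^ (-(1 / 3) : ℝ) := by
    rw [Real.sqrt_eq_rpow, one_div, ← Real.rpow_neg hk0.le]
    apply Real.rpow_le_rpow_of_exponent_le (by linarith)
    norm_num
  have hδd : er k T = (k:ℝ) ^ (-(1 / 3) : ℝ) + (k / Real.log T) ^ (2 / 3 : ℝ) := rfl
  set κ₁ := (k:ℝ) ^ (-(1 / 3) : ℝ) with hκ₁
  set κ₂ := ((k:ℝ) / Real.log T) ^ (2 / 3 : ℝ) with hκ₂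
  set δ := er k T with hδ
  have hδ0 : 0 < δ := by rw [hδd]; positivity
  have h4 := P.sign_lower hε hδ0
  refine le_trans ?_ h4
  have h5 : 2700 / √k * T ≤ 2700 * κ₁ * T := by
    have : 2700 / √(k:ℝ) = 2700 * (1 / √k) := by ring
    rw [this]
    gcongr
  have h6 : κ₁ ^ 3 / δ ^ 2 ≤ κ₁ := by
    rw [div_le_iff₀ (by positivity)]
    have : κ₁ ^ 2 ≤ δ ^ 2 := by
      have : κ₁ ≤ δ := by rw [hδd]; linarith
      gcongr
    calc κ₁ ^ 3 = κ₁ * κ₁ ^ 2 := by ring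
      _ ≤ _ := by gcongr
  have h7 : κ₂ ^ 3 / δ ^ 2 ≤ κ₂ := by
    rw [div_le_iff₀ (by positivity)]
    have : κ₂ ^ 2 ≤ δ ^ 2 := by
      have : κ₂ ≤ δ := by rw [hδd]; linarith
      gcongr
    calc κ₂ ^ 3 = κ₂ * κ₂ ^ 2 := by ring
      _ ≤ _ := by gcongr
  have h8 : 4 / δ ^ 2 * ((4 * 10 ^ 11 * Cb / k + 4608 * (k / Real.log T) ^ 2) * T) ≤
      (16 * 10 ^ 11 * Cb * κ₁ + 18432 * κ₂) * T := by
    have e3 : 4 / δ ^ 2 * ((4 * 10 ^ 11 * Cb / k + 4608 * (k / Real.log T) ^ 2) * T) =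
        (16 * 10 ^ 11 * Cb * (κ₁ ^ 3 / δ ^ 2) + 18432 * (κ₂ ^ 3 / δ ^ 2)) * T := by
      rw [e1, e2]
      ring
    rw [e3]
    gcongr
  have h9 : Cd * δ * T = (2 * 10 ^ 12 * Cb * κ₁ + 2 * 10 ^ 12 * Cb * κ₂ + 10 ^ 5 * κ₁ +
      10 ^ 5 * κ₂) * T := by
    rw [hδd]
    unfold Cd
    ring
  have h10 : δ / 2 * T = (κ₁ / 2 + κ₂ / 2) * T := by
    rw [hδd]
    ring
  rw [h9, h10]
  have i1 : 0 ≤ κ₁ * T := by positivity
  have i2 : 0 ≤ κ₂ * T := by positivity
  have i3 : 0 ≤ Cb * κ₁ * T := by positivity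
  have i4 : 0 ≤ Cb * κ₂ * T := by positivity
  linarith

lemma trivial_bound {T : ℝ} (hT : 0 ≤ T) {S : Set ℝ} (hS : S ⊆ Ioc T (2 * T)) :
    |volume.real S - T / 2| ≤ T / 2 := by
  have h1 : volume.real S ≤ T := by
    have h2 : volume.real (Ioc T (2 * T)) = T := by
      rw [measureReal_def, Real.volume_Ioc, ENNReal.toReal_ofReal (by linarith)]
      ring
    calc volume.real S ≤ volume.real (Ioc T (2 * T)) :=
          measureReal_mono hS (by rw [Real.volume_Ioc]; exact ENNReal.ofReal_ne_top)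
      _ = T := h2
  have h2 : 0 ≤ volume.real S := measureReal_nonneg
  rw [abs_le]
  constructor <;> linarith

/-- **Signs of the derivatives of Hardy's function.** -/
theorem deriv_signs {k : ℕ} (hk : 1 ≤ k) {T : ℝ} (hT : 2 ≤ T) :
    |volume.real {t | t ∈ Ioc T (2 * T) ∧ 0 < iteratedDeriv k Zr t} - T / 2| ≤
      Cd * er k T * T ∧
    |volume.real {t | t ∈ Ioc T (2 * T) ∧ iteratedDeriv k Zr t < 0} - T / 2| ≤
      Cd * er k T * T := by
  by_cases h : 64 ≤ k ∧ exp (64 * k) ≤ T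
  · have P : Par k T (2 * k / Real.log T) (Real.log T / √k) := ⟨h.1, h.2, rfl, rfl⟩
    have h1 := main_lower h.1 h.2 (ε := 1) (Or.inl rfl)
    have h2 := main_lower h.1 h.2 (ε := -1) (Or.inr rfl)
    simp only [one_mul, neg_one_mul] at h1 h2
    have h3 := both_signs (measurable_vd k) P.T0.le h1 h2
    have h4 : ∀ t, t ∈ Ioc T (2 * T) → (vd k t).re = iteratedDeriv k Zr t := by
      intro t ht
      rw [vd_of (by linarith [P.T101, ht.1]), Complex.ofReal_re]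
    have e1 : {t | t ∈ Ioc T (2 * T) ∧ 0 < iteratedDeriv k Zr t} =
        {t | t ∈ Ioc T (2 * T) ∧ 0 < (vd k t).re} := by
      ext t
      exact and_congr_right fun ht => by rw [h4 t ht]
    have e2 : {t | t ∈ Ioc T (2 * T) ∧ iteratedDeriv k Zr t < 0} =
        {t | t ∈ Ioc T (2 * T) ∧ (vd k t).re < 0} := by
      ext t
      exact and_congr_right fun ht => by rw [h4 t ht]
    rw [e1, e2]
    exact h3
  · have h1 := er_big hk hT h
    have hC := Cb_pos
    have h2 : T / 2 ≤ Cd * er k T * T := by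
      have h3 : (1:ℝ) / 2 ≤ Cd * er k T := by
        have h4 : (10:ℝ) ^ 5 ≤ Cd := by
          unfold Cd
          have : 0 ≤ 2 * 10 ^ 12 * Cb := by positivity
          linarith
        calc (1:ℝ) / 2 ≤ 10 ^ 5 * (1 / 16) := by norm_num
          _ ≤ Cd * er k T := by gcongr
      calc T / 2 = 1 / 2 * T := by ring
        _ ≤ _ := mul_le_mul_of_nonneg_right h3 (by linarith)
    exact ⟨(trivial_bound (by linarith) fun t ht => ht.1).trans h2,
      (trivial_bound (by linarith) fun t ht => ht.1).trans h2⟩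

end Pool.Agent.H92.HD
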