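import Pool.Agent.H92.HD.Defs

/-!
# Analytic continuation of `e^{iθ}` near a real point
-/

namespace Pool.Agent.H92.HD

open MeasureTheory Set Real Metric
open Pool.Agent.H77.HZ

/-- The quotient of the two sides of Stirling's approximation of `Γ(z + h)/Γ(z)`,
`z = 1/4 + iy`, `h = iu/2`. -/
noncomputable def gq (y : ℝ) (u : ℂ) : ℂ :=
  Complex.Gamma (((1 / 4 : ℝ) : ℂ) + (y : ℂ) * Complex.I + Complex.I * u / 2) /
    (Complex.Gamma (((1 / 4 : ℝ) : ℂ) + (y : ℂ) * Complex.I) *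
      Complex.exp (Complex.I * u / 2 * Complex.log (((1 / 4 : ℝ) : ℂ) + (y : ℂ) * Complex.I)))

lemma gq_den (y : ℝ) (u : ℂ) :
    Complex.Gamma (((1 / 4 : ℝ) : ℂ) + (y : ℂ) * Complex.I) *
      Complex.exp (Complex.I * u / 2 * Complex.log (((1 / 4 : ℝ) : ℂ) + (y : ℂ) * Complex.I))
      ≠ 0 := by
  refine mul_ne_zero (Complex.Gamma_ne_zero_of_re_pos ?_) (Complex.exp_ne_zero _)
  simp

lemma norm_gq_sub_one {y : ℝ} (hy : 50 ≤ |y|) {u : ℂ} (hu : ‖u‖ < 2 / 5) :
    ‖gq y u - 1‖ ≤ ‖u‖ / 10 := by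
  have hn : ‖Complex.I * u / 2‖ = ‖u‖ / 2 := by
    rw [norm_div, norm_mul, Complex.norm_I, one_mul]
    norm_num
  have hu0 := norm_nonneg u
  have hgr := H74.ZS.gamma_ratio (1 / 4) y (by norm_num) (by linarith) (Complex.I * u / 2)
    (by rw [hn]; linarith)
  rw [hn] at hgr
  have hden := gq_den y u
  set N := Complex.Gamma (((1 / 4 : ℝ) : ℂ) + (y : ℂ) * Complex.I) *
      Complex.exp (Complex.I * u / 2 * Complex.log (((1 / 4 : ℝ) : ℂ) + (y : ℂ) * Complex.I))
    with hN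
  set b : ℝ := 4 * (‖u‖ / 2 + (‖u‖ / 2) ^ 2) / |y| with hb
  have hb0 : 0 ≤ b := by rw [hb]; positivity
  have hb1 : b ≤ ‖u‖ / 20 := by
    rw [hb, div_le_div_iff₀ (by linarith) (by norm_num)]
    have : (‖u‖ / 2) ^ 2 ≤ ‖u‖ / 10 := by nlinarith
    nlinarith
  have hexpb : Real.exp b - 1 ≤ 2 * b := by
    have h4 := Real.abs_exp_sub_one_sub_id_le (x := b) (by rw [abs_of_nonneg hb0]; linarith)
    have h5 := (abs_le.mp h4).2
    nlinarith
  have e1 : gq y u - 1 =
      (Complex.Gamma (((1 / 4 : ℝ) : ℂ) + (y : ℂ) * Complex.I + Complex.I * u / 2) - N) / N := by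
    rw [gq, ← hN, sub_div, div_self hden]
  rw [e1, norm_div, div_le_iff₀ (norm_pos_iff.mpr hden)]
  refine hgr.trans ?_
  rw [mul_comm]
  gcongr
  linarith

lemma gq_slit {y : ℝ} (hy : 50 ≤ |y|) {u : ℂ} (hu : ‖u‖ < 2 / 5) :
    gq y u ∈ Complex.slitPlane := by
  have h := norm_gq_sub_one hy hu
  left
  have h1 : |(gq y u - 1).re| ≤ ‖gq y u - 1‖ := Complex.abs_re_le_norm _
  have h2 := (abs_le.mp h1).1
  rw [Complex.sub_re, Complex.one_re] at h2
  linarith

lemma norm_log_gq {y : ℝ} (hy : 50 ≤ |y|) {u : ℂ} (hu : ‖u‖ < 2 / 5) :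
    ‖Complex.log (gq y u)‖ ≤ 3 / 20 * ‖u‖ := by
  have h := norm_gq_sub_one hy hu
  have h1 := Complex.norm_log_one_add_half_le_self (z := gq y u - 1) (by linarith)
  rw [add_sub_cancel] at h1
  linarith

lemma gq_diff {y : ℝ} {u : ℂ} (hu : ‖u‖ < 2 / 5) : DifferentiableAt ℂ (gq y) u := by
  unfold gq
  refine DifferentiableAt.div ?_ ?_ (gq_den y u)
  · have h2 : DifferentiableAt ℂ Complex.Gamma
        (((1 / 4 : ℝ) : ℂ) + (y : ℂ) * Complex.I + Complex.I * u / 2) := by
      apply Complex.differentiableAt_Gamma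
      intro m hm
      have h3 := congrArg Complex.re hm
      have h4 : |u.im| ≤ ‖u‖ := Complex.abs_im_le_norm _
      have h5 := (abs_le.mp h4).2
      simp at h3
      have hm0 : (0:ℝ) ≤ m := Nat.cast_nonneg m
      linarith
    exact DifferentiableAt.comp u h2 (by fun_prop)
  · fun_prop

/-- The second quotient, at the conjugate point. -/
noncomputable def gp (y : ℝ) (u : ℂ) : ℂ := gq (-y) (-u)

/-- The correction factor. -/
noncomputable def gS (y : ℝ) (u : ℂ) : ℂ :=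
  Complex.exp ((Complex.log (gq y u) - Complex.log (gp y u)) / 2)

lemma gq_conj (y h : ℝ) : gp y h = (starRingEnd ℂ) (gq y h) := by
  have hc : (starRingEnd ℂ) (((1 / 4 : ℝ) : ℂ) + (y : ℂ) * Complex.I) =
      ((1 / 4 : ℝ) : ℂ) + ((-y : ℝ) : ℂ) * Complex.I := by
    rw [map_add, map_mul, Complex.conj_ofReal, Complex.conj_ofReal, Complex.conj_I]
    push_cast
    ring
  have hc2 : (starRingEnd ℂ) (Complex.I * (h : ℂ) / 2) = Complex.I * (-(h : ℂ)) / 2 := by
    rw [map_div₀, map_mul, Complex.conj_ofReal, Complex.conj_I, map_ofNat]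
    ring
  have harg : Complex.arg (((1 / 4 : ℝ) : ℂ) + (y : ℂ) * Complex.I) ≠ π := by
    intro h0
    rw [Complex.arg_eq_pi_iff] at h0
    have := h0.1
    simp at this
    linarith
  unfold gp gq
  rw [map_div₀, map_mul, ← Complex.Gamma_conj, ← Complex.Gamma_conj, ← Complex.exp_conj, map_mul,
    ← Complex.log_conj _ harg, map_add, hc, hc2]

lemma gS_real {y : ℝ} (hy : 50 ≤ |y|) {h : ℝ} (hh : |h| < 2 / 5) :
    gS y h = ph (gq y h) := by
  have hh' : ‖(h : ℂ)‖ < 2 / 5 := by rwa [Complex.norm_real, Real.norm_eq_abs]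
  have hs := gq_slit hy hh'
  have hq0 : gq y h ≠ 0 := Complex.slitPlane_ne_zero hs
  have harg : Complex.arg (gq y h) ≠ π := Complex.slitPlane_arg_ne_pi hs
  have e1 : (Complex.log (gq y h) - Complex.log (gp y h)) / 2 =
      (Complex.arg (gq y h) : ℂ) * Complex.I := by
    rw [gq_conj, Complex.log_conj _ harg]
    apply Complex.ext
    · simp
    · simp [Complex.log_im]
  rw [gS, e1]
  unfold ph
  rw [eq_div_iff (by exact_mod_cast norm_ne_zero_iff.mpr hq0), mul_comm]
  exact Complex.norm_mul_exp_arg_mul_I _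

/-- The rotation of `e^{iθ}` over a real time `h` of either sign. -/
lemma eTh_add {t h : ℝ} : eTh (t + h) = eTh t * Complex.exp (Complex.I * h * (lam t / 2 : ℝ)) *
    ph (gq (t / 2) h) := by
  have hπ := Real.pi_pos
  set z : ℂ := ((1 / 4 : ℝ) : ℂ) + ((t / 2 : ℝ) : ℂ) * Complex.I with hz
  have hzt : (1 / 4 + Complex.I * t / 2 : ℂ) = z := by rw [hz]; push_cast; ring
  have hzth : (1 / 4 + Complex.I * ((t + h : ℝ) : ℂ) / 2 : ℂ) = z + Complex.I * h / 2 := by
    rw [hz]; push_cast; ring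
  have hz0 : 0 < ‖z‖ := by
    rw [norm_pos_iff]
    intro h0
    have := congrArg Complex.re h0
    simp [hz] at this
  have hlam : lam t = Real.log ‖z‖ - Real.log π := by
    rw [lam, hzt, Real.log_div hz0.ne' hπ.ne']
  set h' : ℂ := Complex.I * h / 2 with hh'
  set Γz := Complex.Gamma z with hΓz
  set E := Complex.exp (h' * Complex.log z) with hE
  have hΓE : Γz * E ≠ 0 := gq_den (t / 2) h
  set q : ℂ := gq (t / 2) h with hq
  have hGq : Complex.Gamma (z + h') = Γz * E * q := by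
    rw [hq, gq, ← hz, ← hh', mul_div_cancel₀ _ hΓE]
  have hphE : ph E = Complex.exp (Complex.I * ((h / 2 * Real.log ‖z‖ : ℝ) : ℂ)) := by
    have hsplit : h' * Complex.log z = ((-(h / 2 * Complex.arg z) : ℝ) : ℂ) +
        Complex.I * ((h / 2 * Real.log ‖z‖ : ℝ) : ℂ) := by
      have hlz : Complex.log z = (Real.log ‖z‖ : ℂ) + (Complex.arg z : ℂ) * Complex.I := rfl
      rw [hlz, hh']
      push_cast
      have hI : Complex.I * Complex.I = -1 := Complex.I_mul_I
      linear_combination ((h:ℂ) / 2 * Complex.arg z) * hI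
    rw [hE, hsplit, Complex.exp_add, ph_mul, ph_of_norm_one (norm_exp_I _), ← Complex.ofReal_exp]
    have : ph ((Real.exp (-(h / 2 * Complex.arg z)) : ℝ) : ℂ) = 1 := by
      unfold ph
      rw [Complex.norm_real, Real.norm_eq_abs, abs_of_pos (Real.exp_pos _)]
      apply div_self
      exact_mod_cast (Real.exp_pos _).ne'
    rw [this, one_mul]
  rw [eTh_eq, eTh_eq, hzt, hzth, hGq, ph_mul, ph_mul, hphE, hlam]
  have e2 : Complex.exp (Complex.I * ((-((t + h) / 2 * Real.log π) : ℝ) : ℂ)) *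
      Complex.exp (Complex.I * ((h / 2 * Real.log ‖z‖ : ℝ) : ℂ)) =
      Complex.exp (Complex.I * h * (((Real.log ‖z‖ - Real.log π) / 2 : ℝ) : ℂ)) *
      Complex.exp (Complex.I * ((-(t / 2 * Real.log π) : ℝ) : ℂ)) := by
    rw [← Complex.exp_add, ← Complex.exp_add]
    congr 1
    push_cast
    ring
  linear_combination (ph Γz * ph q) * e2

theorem gam_cont {t : ℝ} (ht : 100 ≤ t) :
    ∃ S : ℂ → ℂ, DifferentiableOn ℂ S (ball 0 (2 / 5)) ∧
      (∀ w ∈ ball (0:ℂ) (2 / 5), ‖S w - 1‖ ≤ ‖w‖) ∧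
      ∀ h : ℝ, |h| < 2 / 5 →
        eTh (t + h) = eTh t * Complex.exp (Complex.I * h * (lam t / 2 : ℝ)) * S h := by
  have hy : 50 ≤ |t / 2| := by rw [abs_of_nonneg (by linarith)]; linarith
  have hy' : 50 ≤ |-(t / 2)| := by rwa [abs_neg]
  refine ⟨gS (t / 2), ?_, ?_, ?_⟩
  · intro w hw
    rw [mem_ball_zero_iff] at hw
    have hw' : ‖-w‖ < 2 / 5 := by rwa [norm_neg]
    apply DifferentiableAt.differentiableWithinAt
    have h1 : DifferentiableAt ℂ (fun u => Complex.log (gq (t / 2) u)) w :=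
      (gq_diff hw).clog (gq_slit hy hw)
    have h2 : DifferentiableAt ℂ (fun u => Complex.log (gp (t / 2) u)) w := by
      have h3 : DifferentiableAt ℂ (fun u => gq (-(t / 2)) (-u)) w :=
        DifferentiableAt.comp w (gq_diff hw') (by fun_prop)
      exact h3.clog (gq_slit hy' hw')
    unfold gS
    exact ((h1.sub h2).div_const 2).cexp
  · intro w hw
    rw [mem_ball_zero_iff] at hw
    have hw' : ‖-w‖ < 2 / 5 := by rwa [norm_neg]
    have h1 := norm_log_gq hy hw
    have h2 := norm_log_gq hy' hw'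
    rw [norm_neg] at h2
    have hx : ‖(Complex.log (gq (t / 2) w) - Complex.log (gp (t / 2) w)) / 2‖ ≤
        3 / 20 * ‖w‖ := by
      rw [norm_div, show ‖(2:ℂ)‖ = 2 by norm_num, div_le_iff₀ (by norm_num)]
      refine (norm_sub_le _ _).trans ?_
      unfold gp
      linarith
    have h0 := norm_nonneg w
    have h3 := Complex.norm_exp_sub_one_le
      (x := (Complex.log (gq (t / 2) w) - Complex.log (gp (t / 2) w)) / 2) (by linarith)
    rw [gS]
    linarith
  · intro h hh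
    rw [gS_real hy hh]
    exact eTh_add

theorem lam_near {T t : ℝ} (hT : 100 ≤ T) (ht : T ≤ t) (ht2 : t ≤ 2 * T) :
    |lam t - Real.log T| ≤ 2 := by
  have hπ := Real.pi_pos
  have hπ3 := Real.pi_gt_three
  have hπ4 := Real.pi_lt_d4
  have hT0 : 0 < T := by linarith
  set z : ℂ := (1 / 4 + Complex.I * t / 2 : ℂ) with hz
  have him : z.im = t / 2 := by simp [hz]
  have hlow : T / 2 ≤ ‖z‖ := by
    have h1 := Complex.abs_im_le_norm z
    rw [him, abs_of_nonneg (by linarith)] at h1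
    linarith
  have hup : ‖z‖ ≤ T + 1 / 4 := by
    have h1 : ‖z‖ ≤ ‖(1 / 4 : ℂ)‖ + ‖Complex.I * t / 2‖ := norm_add_le _ _
    rw [norm_div, norm_div, norm_mul, Complex.norm_I, Complex.norm_real, Real.norm_eq_abs,
      abs_of_nonneg (by linarith : 0 ≤ t)] at h1
    norm_num at h1
    linarith
  have h1 : Real.log (‖z‖ / π) ≤ Real.log T := by
    apply Real.log_le_log (by apply div_pos _ hπ; linarith)
    rw [div_le_iff₀ hπ]
    nlinarith
  have h2 : Real.log T ≤ Real.log (‖z‖ / π) + 2 := by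
    have e : Real.log (‖z‖ / π) + 2 = Real.log (‖z‖ / π * Real.exp 2) := by
      rw [Real.log_mul (by apply ne_of_gt; apply div_pos _ hπ; linarith) (Real.exp_ne_zero _),
        Real.log_exp]
    rw [e]
    apply Real.log_le_log hT0
    have he : 7 ≤ Real.exp 2 := by
      have h3 := Real.exp_one_gt_d9
      have h4 : Real.exp 2 = Real.exp 1 * Real.exp 1 := by rw [← Real.exp_add]; norm_num
      rw [h4]
      nlinarith
    rw [div_mul_eq_mul_div, le_div_iff₀ hπ]
    nlinarith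
  rw [lam, ← hz, abs_le]
  constructor <;> linarith

end Pool.Agent.H92.HD
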